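import Pool.Agent.H96.AS.Df
import Pool.Agent.H6.MB.RHO

/-!
# BT: Selberg's weight, normalised; the primes are at most `1/θ` times the weight

* `BT`: `RHO` (`Pool/Agent/H6/MB/RHO.lean`) gives `β₀`, `μ₂`; put `β = β₀/μ₂`. `μ₂ ≥ EP z R ≥ c > 0` (`mer5 (δ/θ)`, `z = R^{δ/θ}`, as in the proofs of `RHO`, `MAJ`), so the constant is `C₀/c` and the `TD` bound is `x^(2θ)/μ₂ ≤ x^(2θ)/c` (scaling of `TD`: same set, coefficients divided by `μ₂`;
  e.g. `TD_mul` with a constant function or directly). On integers without prime factors in `(z,R]`: `β = 1/μ₂ ≥ θ log x * EP 0 z` because `μ₂ * EP 0 z ≤ 1/(θ log x)`.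
* `MJ`: let `La x n ≠ 0`: `n` is a prime in `(x^(1/4), x]`; `w ≤ z ≤ x^θ ≤ x^(1/4)`, so `Mm w n = wp w = (EP 0 w)⁻¹` (`wp_eq`), `V n = (EP w z)⁻¹` (second part of `GoodVm`), `β n ≥ θ log x * EP 0 z`, and `EP 0 w * EP w z = EP 0 z` (`EP_mul`): the product is `≥ θ log x`
  (see the proof of `BMU_maj` in `Pool/Agent/H96/AE/BMU.lean`).
-/

set_option autoImplicit false

namespace Pool.Agent.H96.AS

open Finset Pool.Agent.H17 Pool.Agent.H6.MF Pool.Agent.H6.MB Pool.Agent.H12.DM Pool.Agent.H6.AE Pool.Agent.H96.AE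

private theorem BT_TD {P : ℕ} {B c μ : ℝ} {F : ℤ → ℝ} (h : TD P B F) (hc : 0 < c) (hμ : c ≤ μ) (hB : 0 ≤ B) :
    TD P (B / c) (fun n => F n / μ) := by
  obtain ⟨D, lam, h1, h2, h3⟩ := h
  have hμ0 : 0 < μ := lt_of_lt_of_le hc hμ
  refine ⟨D, fun d => lam d / μ, h1, fun n => ?_, ?_⟩
  · simp only
    rw [h2 n, Finset.sum_div]
    refine Finset.sum_congr rfl fun d _ => ?_
    split_ifs
    · rfl
    · rw [zero_div]
  · simp only [abs_div]
    rw [← Finset.sum_div, abs_of_pos hμ0]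
    calc (∑ d ∈ D, |lam d|) / μ ≤ B / μ := div_le_div_of_nonneg_right h3 hμ0.le
      _ ≤ B / c := div_le_div_of_nonneg_left hB hc hμ

private theorem BT_avg (P : ℕ) (F : ℤ → ℝ) (μ : ℝ) : avgP P (fun n => F n / μ) = avgP P F / μ := by
  unfold avgP
  rw [← Finset.sum_div, div_right_comm]

theorem BT (δ θ : ℝ) (hδ : 0 < δ) (hδθ : δ < θ) (hθ : θ ≤ 1 / 4) : ∃ C X : ℝ, 0 < C ∧ ∀ x : ℝ, X ≤ x →
    ∃ β : ℤ → ℝ, GoodBt δ θ C x β := by
  have hθ0 : 0 < θ := hδ.trans hδθ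
  have hq0 : 0 < δ / θ := div_pos hδ hθ0
  have hq1 : δ / θ ≤ 1 := by rw [div_le_one hθ0]; exact hδθ.le
  obtain ⟨C0, X0, hC0, hX0⟩ := RHO δ θ hδ hδθ hθ
  obtain ⟨c, hc, hc'⟩ := mer5 (δ / θ) hq0 hq1
  refine ⟨(C0 + 1) / c, max X0 3, by positivity, fun x hx => ?_⟩
  have hx3 : 3 ≤ x := (le_max_right _ _).trans hx
  have hx0 : 0 < x := by linarith
  have hlog : 0 < Real.log x := Real.log_pos (by linarith)
  have hR1 : 1 ≤ x ^ θ := Real.one_le_rpow (by linarith) hθ0.le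
  have hRz : (x ^ θ) ^ (δ / θ) = x ^ δ := by
    rw [← Real.rpow_mul hx0.le]
    congr 1
    field_simp
  have hce := hc' (x ^ θ) hR1
  rw [hRz] at hce
  obtain ⟨β, μ, h1, h2, h3, h4, h5, h6, h7, h8⟩ := hX0 x ((le_max_left _ _).trans hx)
  have hcμ : c ≤ μ := hce.trans h6
  have hμ : 0 < μ := lt_of_lt_of_le hc hcμ
  refine ⟨fun n => β n / μ, fun n => div_nonneg (h1 n) hμ.le, fun n hn => ?_, ?_, ?_, fun k hk hk' => ?_,
    fun n hn hn' => ?_⟩
  · simp only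
    rw [h2 n hn, le_div_iff₀ hμ]
    have e1 : 0 < θ * Real.log x := mul_pos hθ0 hlog
    have e2 := mul_le_mul_of_nonneg_left h5 e1.le
    rw [mul_one_div_cancel e1.ne'] at e2
    calc θ * Real.log x * EP 0 (x ^ δ) * μ = θ * Real.log x * (μ * EP 0 (x ^ δ)) := by ring
      _ ≤ 1 := e2
  · refine TD_mono (BT_TD h3 hc hcμ (by positivity)) dvd_rfl ?_
    rw [div_mul_eq_mul_div]
    refine div_le_div_of_nonneg_right ?_ hc.le
    have e1 : 0 ≤ x ^ (2 * θ) := by positivity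
    nlinarith
  · rw [BT_avg, h4, div_self hμ.ne']
  · have e1 : (fun n => β n / μ * (β (n + k) / μ)) = fun n => β n * β (n + k) / μ ^ 2 := by
      funext n
      rw [div_mul_div_comm, sq]
    simp only
    rw [e1, BT_avg _ (fun n => β n * β (n + k)), div_le_iff₀ (by positivity)]
    exact h7 k hk hk'
  · simp only
    calc β n / μ ≤ C0 / μ := div_le_div_of_nonneg_right (h8 n hn hn') hμ.le
      _ ≤ C0 / c := div_le_div_of_nonneg_left hC0.le hc hcμ
      _ ≤ (C0 + 1) / c := div_le_div_of_nonneg_right (by linarith) hc.le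

private theorem BT_large (δ : ℝ) (hd : 0 < δ) : ∃ X : ℝ, ∀ x : ℝ, X ≤ x → 1 ≤ x ∧ 1 ≤ Real.log x ∧
    (yy x : ℝ) ≤ x ^ δ := by
  have h1 : ∀ᶠ x : ℝ in Filter.atTop, 1 ≤ x := Filter.eventually_ge_atTop 1
  have h2 : ∀ᶠ x : ℝ in Filter.atTop, 1 ≤ Real.log x := Real.tendsto_log_atTop.eventually_ge_atTop 1
  have h4 : ∀ᶠ t : ℝ in Filter.atTop, ‖Real.log t‖ ≤ δ * ‖id t‖ := Real.isLittleO_log_id_atTop.bound hd
  have h5 : ∀ᶠ x : ℝ in Filter.atTop, ‖Real.log (Real.log x)‖ ≤ δ * ‖id (Real.log x)‖ :=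
    Real.tendsto_log_atTop.eventually h4
  obtain ⟨X, hX⟩ := Filter.eventually_atTop.1 (h1.and (h2.and h5))
  refine ⟨X, fun x hx => ?_⟩
  obtain ⟨a1, a2, a4⟩ := hX x hx
  refine ⟨a1, a2, ?_⟩
  have e1 : 0 ≤ Real.log (Real.log x) := Real.log_nonneg a2
  have e2 : Real.log (Real.log x) ≤ δ * Real.log x := by
    simp only [id, Real.norm_eq_abs] at a4
    rw [abs_of_nonneg e1, abs_of_nonneg (by linarith)] at a4
    exact a4
  have e3 : ((yy x : ℕ) : ℝ) ≤ Real.log (Real.log x) / 100 := by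
    unfold yy
    exact Nat.floor_le (by positivity)
  have e4 : x ^ δ = Real.exp (Real.log x * δ) := Real.rpow_def_of_pos (by linarith) _
  rw [e4]
  have e5 := Real.add_one_le_exp (Real.log x * δ)
  linarith

theorem MJ (m b : ℕ) (θ C : ℝ) (hθ0 : dlm m b < θ) (hθ : θ ≤ 1 / 4) : ∃ X : ℝ, ∀ x : ℝ, X ≤ x → ∀ V : ℤ → ℝ, GoodVm m b x V →
    ∀ β : ℤ → ℝ, GoodBt (dlm m b) θ C x β → ∀ n : ℤ, La x n ≤ 1 / θ * (Mm (yy x) n * (V n * β n)) := by
  have hd := dlm_pos m b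
  obtain ⟨X, hX⟩ := BT_large (dlm m b) hd
  refine ⟨X, fun x hx V hV β hβ n => ?_⟩
  obtain ⟨a1, a2, a4⟩ := hX x hx
  have hθp : 0 < θ := hd.trans hθ0
  by_cases h : isP n ∧ x ^ (1 / 4 : ℝ) < (n : ℝ) ∧ (n : ℝ) ≤ x
  · obtain ⟨hp, hn1, hn2⟩ := h
    have hθ4 : x ^ θ ≤ x ^ (1 / 4 : ℝ) := Real.rpow_le_rpow_of_exponent_le a1 hθ
    have hzθ : x ^ dlm m b ≤ x ^ θ := Real.rpow_le_rpow_of_exponent_le a1 hθ0.le
    have hp' : n.toNat.Prime := hp
    have hnn : ((n.toNat : ℕ) : ℤ) = n := by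
      apply Int.toNat_of_nonneg
      by_contra hneg
      have : n.toNat = 0 := Int.toNat_of_nonpos (by omega)
      rw [this] at hp'
      exact Nat.not_prime_zero hp'
    set k := n.toNat with hk
    have hmn : (k : ℝ) = (n : ℝ) := by
      rw [← hnn]; simp
    have hndvd : ∀ p : ℕ, p.Prime → (p : ℝ) ≤ x ^ θ → ¬ p ∣ k := by
      intro p hpp hle hdv
      have : p = k := (Nat.prime_dvd_prime_iff_eq hpp hp').1 hdv
      rw [this, hmn] at hle
      linarith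
    have hMm : Mm (yy x) n = wp (yy x) := by
      unfold Mm
      rw [if_pos]
      rw [← hnn, Int.gcd_natCast_natCast]
      show k.Coprime (WW (yy x))
      rw [coprime_WW]
      intro p hpm
      have hpm' := mem_PP.mp hpm
      refine hndvd p hpm'.2 ?_
      have : (p : ℝ) ≤ (yy x : ℝ) := by exact_mod_cast hpm'.1
      linarith
    have hVn : V n = (EP (yy x : ℝ) (x ^ dlm m b))⁻¹ := by
      apply hV.2.1
      intro p hpp hdv
      have hq := Vc_memPI (by positivity) hpp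
      refine hndvd p hq.1 (hq.2.trans hzθ) ?_
      rw [← hnn] at hdv
      exact_mod_cast hdv
    have hβn : θ * Real.log x * EP 0 (x ^ dlm m b) ≤ β n := by
      apply hβ.2.1
      intro p hpp hdv
      have hq := Vc_memPI (by positivity) hpp
      refine hndvd p hq.1 hq.2 ?_
      rw [← hnn] at hdv
      exact_mod_cast hdv
    have hLa : La x n = Real.log x := by
      unfold La
      rw [if_pos ⟨hp, hn1, hn2⟩]
    rw [hLa, hMm, hVn, wp_eq, ← mul_assoc (EP 0 (yy x : ℝ))⁻¹, ← mul_inv, ← EP_mul (by positivity) a4]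
    have hpos := EP_pos 0 (x ^ dlm m b)
    calc Real.log x = 1 / θ * ((EP 0 (x ^ dlm m b))⁻¹ * (θ * Real.log x * EP 0 (x ^ dlm m b))) := by
          field_simp
      _ ≤ 1 / θ * ((EP 0 (x ^ dlm m b))⁻¹ * β n) := by
          apply mul_le_mul_of_nonneg_left _ (by positivity)
          exact mul_le_mul_of_nonneg_left hβn (by positivity)
  · have hLa : La x n = 0 := by
      unfold La
      rw [if_neg h]
    rw [hLa]
    have e1 := hV.1 n
    have e2 := Mm_nonneg (yy x) n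
    have e3 := hβ.1 n
    positivity

end Pool.Agent.H96.AS
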