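import Pool.Agent.H96.AE.ISO

/-!
# CH: replacing the factors one after another (finite sums)

`f, M, ν ≥ 0`, `f ≤ q ν`, `s C ≥ 0`, `k = j + 1`, `P_i(C) = powersetCard i C`. `ZZ i = ∑_{C ∈ P_k(A)} s C ∑_{T ∈ P_i(C)} ∑_{n∈J} ∏_T M(n-c) ∏_{C \ T} f(n-c)`, `GG i S n = ∑_{T ∈ P_i(S)} ∏_T M(n-c) ∏_{S \ T} f(n-c)`,
`ER i = ∑_{S ∈ P_j(A)} ∑_n GG i S n ∑_{e ∈ A \ S} s (insert e S) (ν - M)(n-e)`.
* `CH_G`: all terms are `≥ 0` and `∑_{T ⊆ S} ∏_T M ∏_{S\T} f = ∏_S (M + f)` (`Finset.prod_add`), `P_i(S) ⊆ S.powerset`.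
* `CH_step` (`i ≤ j`): for `T ∈ P_i(C)` and `e ∈ C \ T` (`k - i` choices): `∏_T M ∏_{C\T} f ≤ ∏_T M ∏_{(C\T)\e} f * q ν(n-e)`. Sum over `T`, `e`: the pairs `(T,e)` with `T ∈ P_i(C)`, `e ∈ C \ T` are the pairs with `e ∈ C`, `T ∈ P_i(C.erase e)`, `(C \ T) \ {e} = (C.erase e) \ T`:
  `(k-i) ∑_T ∏_T M ∏_{C\T} f ≤ q ∑_{e∈C} GG i (C.erase e) n (M(n-e) + (ν-M)(n-e))`. Main part: `(T,e) ↦ insert e T ∈ P_(i+1)(C)`, every `T' ∈ P_(i+1)(C)` arises `i+1` times (`ISO1`/`ISO2` for the set `C`): `∑_{e∈C} GG i (C.erase e) n M(n-e) = (i+1) ∑_{T' ∈ P_(i+1)(C)} ∏_{T'} M ∏_{C\T'} f`.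
  Other part: `∑_{C ∈ P_(j+1)(A)} s C ∑_{e∈C} Φ (C.erase e) e`, `C = insert e (C.erase e)`: `ISO1`.
* `CH_last`: `P_j(C) = {C.erase e : e ∈ C}` for `|C| = j + 1`, `C \ C.erase e = {e}`.
* `CH_iter`: `Z_i = ZZ i/choose (j+1) i`, `D = (j+1-i) choose (j+1) i = (i+1) choose (j+1) (i+1) ≥ 1` (`Nat.choose_succ_right_eq`), so `Z_i ≤ q Z_(i+1) + q E/D ≤ q Z_(i+1) + q E` for `i < j`; `Z_0 ≤ q^j Z_j + (q + ... + q^j) E ≤ q^j Z_j + j q^j E`, `choose (j+1) j = j + 1`, `choose (j+1) 0 = 1`,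
  `ZZ 0 = ∑_C s C ∑_n ∏_C f(n-c)`.
-/

set_option autoImplicit false

namespace Pool.Agent.H96.AS

open Finset Pool.Agent.H96.AE

noncomputable def ZZ (J : Finset ℕ) (A : Finset ℤ) (f M : ℤ → ℝ) (s : Finset ℤ → ℝ) (k i : ℕ) : ℝ :=
  ∑ C ∈ Finset.powersetCard k A, s C * ∑ T ∈ Finset.powersetCard i C, ∑ n ∈ J,
    (∏ c ∈ T, M ((n : ℤ) - c)) * ∏ c ∈ C \ T, f ((n : ℤ) - c)

noncomputable def GG (f M : ℤ → ℝ) (i : ℕ) (S : Finset ℤ) (n : ℤ) : ℝ :=
  ∑ T ∈ Finset.powersetCard i S, (∏ c ∈ T, M (n - c)) * ∏ c ∈ S \ T, f (n - c)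

noncomputable def ER (J : Finset ℕ) (A : Finset ℤ) (f M ν : ℤ → ℝ) (s : Finset ℤ → ℝ) (j i : ℕ) : ℝ :=
  ∑ S ∈ Finset.powersetCard j A, ∑ n ∈ J, GG f M i S (n : ℤ) *
    ∑ e ∈ A \ S, s (insert e S) * (ν ((n : ℤ) - e) - M ((n : ℤ) - e))

theorem CH_G (f M : ℤ → ℝ) (hf : ∀ n, 0 ≤ f n) (hM : ∀ n, 0 ≤ M n) (i : ℕ) (S : Finset ℤ) (n : ℤ) :
    |GG f M i S n| ≤ ∏ c ∈ S, (M (n - c) + f (n - c)) := by
  have h0 : ∀ T : Finset ℤ, 0 ≤ (∏ c ∈ T, M (n - c)) * ∏ c ∈ S \ T, f (n - c) := fun T =>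
    mul_nonneg (Finset.prod_nonneg fun c _ => hM _) (Finset.prod_nonneg fun c _ => hf _)
  unfold GG
  rw [abs_of_nonneg (Finset.sum_nonneg fun T _ => h0 T), Finset.prod_add]
  refine Finset.sum_le_sum_of_subset_of_nonneg (fun T hT => ?_) fun T _ _ => h0 T
  rw [Finset.mem_powersetCard] at hT
  exact Finset.mem_powerset.2 hT.1

/-- the symmetric sums -/
private noncomputable def CHg (a b : ℤ → ℝ) (i : ℕ) (S : Finset ℤ) : ℝ :=
  ∑ T ∈ Finset.powersetCard i S, (∏ c ∈ T, a c) * ∏ c ∈ S \ T, b c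

private lemma CH_swap (C : Finset ℤ) (i : ℕ) (Ψ : Finset ℤ → ℤ → ℝ) :
    ∑ T ∈ Finset.powersetCard i C, ∑ e ∈ C \ T, Ψ T e =
      ∑ e ∈ C, ∑ T ∈ Finset.powersetCard i (C.erase e), Ψ T e := by
  refine Finset.sum_comm' fun T e => ?_
  rw [Finset.mem_powersetCard, Finset.mem_powersetCard, Finset.mem_sdiff]
  constructor
  · rintro ⟨⟨h1, h2⟩, h3, h4⟩
    refine ⟨⟨fun c hc => Finset.mem_erase.2 ⟨fun h => h4 (h ▸ hc), h1 hc⟩, h2⟩, h3⟩
  · rintro ⟨⟨h1, h2⟩, h3⟩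
    exact ⟨⟨h1.trans (Finset.erase_subset _ _), h2⟩, h3, fun h => (Finset.mem_erase.1 (h1 h)).1 rfl⟩

private lemma CH_set (C T : Finset ℤ) (e : ℤ) : C \ insert e T = (C.erase e) \ T := by
  ext c
  simp only [Finset.mem_sdiff, Finset.mem_insert, Finset.mem_erase]
  tauto

private lemma CH_set' (C T : Finset ℤ) (e : ℤ) : (C \ T).erase e = (C.erase e) \ T := by
  ext c
  simp only [Finset.mem_sdiff, Finset.mem_erase]
  tauto

private lemma CH_main (a b : ℤ → ℝ) (i : ℕ) (C : Finset ℤ) :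
    ∑ e ∈ C, CHg a b i (C.erase e) * a e = ((i : ℝ) + 1) * CHg a b (i + 1) C := by
  unfold CHg
  rw [← ISO2 C i (fun T' => (∏ c ∈ T', a c) * ∏ c ∈ C \ T', b c),
    CH_swap C i (fun T e => (∏ c ∈ insert e T, a c) * ∏ c ∈ C \ insert e T, b c)]
  refine Finset.sum_congr rfl fun e _ => ?_
  rw [Finset.sum_mul]
  refine Finset.sum_congr rfl fun T hT => ?_
  rw [Finset.mem_powersetCard] at hT
  have he : e ∉ T := fun h => (Finset.mem_erase.1 (hT.1 h)).1 rfl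
  rw [Finset.prod_insert he, CH_set]
  ring

private lemma CH_pt (a b v : ℤ → ℝ) (ha : ∀ n, 0 ≤ a n) (hb : ∀ n, 0 ≤ b n) (q : ℝ)
    (hv : ∀ n, b n ≤ q * v n) (j i : ℕ) (hi : i ≤ j) (C : Finset ℤ) (hC : C.card = j + 1) :
    ((j : ℝ) + 1 - i) * CHg a b i C ≤
      q * (((i : ℝ) + 1) * CHg a b (i + 1) C + ∑ e ∈ C, CHg a b i (C.erase e) * (v e - a e)) := by
  have e1 : ((i : ℝ) + 1) * CHg a b (i + 1) C + ∑ e ∈ C, CHg a b i (C.erase e) * (v e - a e) =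
      ∑ e ∈ C, CHg a b i (C.erase e) * v e := by
    rw [← CH_main, ← Finset.sum_add_distrib]
    refine Finset.sum_congr rfl fun e _ => ?_
    ring
  rw [e1]
  have e2 : ((j : ℝ) + 1 - i) * CHg a b i C =
      ∑ T ∈ Finset.powersetCard i C, ∑ e ∈ C \ T, (∏ c ∈ T, a c) * (b e * ∏ c ∈ (C.erase e) \ T, b c) := by
    unfold CHg
    rw [Finset.mul_sum]
    refine Finset.sum_congr rfl fun T hT => ?_
    rw [Finset.mem_powersetCard] at hT
    have h1 : ∀ e ∈ C \ T, (∏ c ∈ T, a c) * (b e * ∏ c ∈ (C.erase e) \ T, b c) =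
        (∏ c ∈ T, a c) * ∏ c ∈ C \ T, b c := by
      intro e he
      rw [← CH_set', Finset.mul_prod_erase _ _ he]
    rw [Finset.sum_congr rfl h1, Finset.sum_const, Finset.card_sdiff_of_subset hT.1, hT.2, hC, nsmul_eq_mul,
      Nat.cast_sub (by omega)]
    push_cast
    ring
  rw [e2, CH_swap, Finset.mul_sum]
  refine Finset.sum_le_sum fun e _ => ?_
  unfold CHg
  rw [Finset.sum_mul, Finset.mul_sum]
  refine Finset.sum_le_sum fun T _ => ?_
  have h1 : 0 ≤ (∏ c ∈ T, a c) * ∏ c ∈ (C.erase e) \ T, b c :=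
    mul_nonneg (Finset.prod_nonneg fun c _ => ha _) (Finset.prod_nonneg fun c _ => hb _)
  have h2 := mul_le_mul_of_nonneg_left (hv e) h1
  calc (∏ c ∈ T, a c) * (b e * ∏ c ∈ (C.erase e) \ T, b c)
      = ((∏ c ∈ T, a c) * ∏ c ∈ (C.erase e) \ T, b c) * b e := by ring
    _ ≤ ((∏ c ∈ T, a c) * ∏ c ∈ (C.erase e) \ T, b c) * (q * v e) := h2
    _ = q * ((∏ c ∈ T, a c) * (∏ c ∈ (C.erase e) \ T, b c) * v e) := by ring

private lemma CH_ZZ (J : Finset ℕ) (A : Finset ℤ) (f M : ℤ → ℝ) (s : Finset ℤ → ℝ) (k i : ℕ) :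
    ZZ J A f M s k i = ∑ C ∈ Finset.powersetCard k A, s C * ∑ n ∈ J,
      CHg (fun c => M ((n : ℤ) - c)) (fun c => f ((n : ℤ) - c)) i C := by
  unfold ZZ CHg
  refine Finset.sum_congr rfl fun C _ => ?_
  rw [Finset.sum_comm]

theorem CH_step (J : Finset ℕ) (A : Finset ℤ) (f M ν : ℤ → ℝ) (hf : ∀ n, 0 ≤ f n) (hM : ∀ n, 0 ≤ M n)
    (q : ℝ) (hq : 0 ≤ q) (hν : ∀ n, f n ≤ q * ν n) (s : Finset ℤ → ℝ) (hs : ∀ C, 0 ≤ s C) (j i : ℕ) (hi : i ≤ j) :
    ((j : ℝ) + 1 - i) * ZZ J A f M s (j + 1) i ≤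
      q * (((i : ℝ) + 1) * ZZ J A f M s (j + 1) (i + 1) + ER J A f M ν s j i) := by
  have hER : ER J A f M ν s j i = ∑ C ∈ Finset.powersetCard (j + 1) A, s C * ∑ n ∈ J, ∑ e ∈ C,
      CHg (fun c => M ((n : ℤ) - c)) (fun c => f ((n : ℤ) - c)) i (C.erase e) *
        (ν ((n : ℤ) - e) - M ((n : ℤ) - e)) := by
    set Φ : Finset ℤ → ℤ → ℝ := fun S e => s (insert e S) * ∑ n ∈ J,
      CHg (fun c => M ((n : ℤ) - c)) (fun c => f ((n : ℤ) - c)) i S * (ν ((n : ℤ) - e) - M ((n : ℤ) - e)) with hΦ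
    have h1 : ER J A f M ν s j i = ∑ S ∈ Finset.powersetCard j A, ∑ t ∈ A \ S, Φ S t := by
      unfold ER
      refine Finset.sum_congr rfl fun S _ => ?_
      simp only [hΦ, Finset.mul_sum]
      rw [Finset.sum_comm]
      refine Finset.sum_congr rfl fun e _ => Finset.sum_congr rfl fun n _ => ?_
      unfold GG CHg
      ring
    rw [h1, ← ISO1 A j Φ]
    refine Finset.sum_congr rfl fun C _ => ?_
    rw [Finset.sum_comm, Finset.mul_sum]
    refine Finset.sum_congr rfl fun e he => ?_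
    simp only [hΦ]
    rw [Finset.insert_erase he]
  rw [hER, CH_ZZ, CH_ZZ, Finset.mul_sum, Finset.mul_sum, ← Finset.sum_add_distrib, Finset.mul_sum]
  refine Finset.sum_le_sum fun C hC => ?_
  rw [Finset.mem_powersetCard] at hC
  have h2 : ((j : ℝ) + 1 - i) * (∑ n ∈ J, CHg (fun c => M ((n : ℤ) - c)) (fun c => f ((n : ℤ) - c)) i C) ≤
      q * (((i : ℝ) + 1) * (∑ n ∈ J, CHg (fun c => M ((n : ℤ) - c)) (fun c => f ((n : ℤ) - c)) (i + 1) C) +
        ∑ n ∈ J, ∑ e ∈ C, CHg (fun c => M ((n : ℤ) - c)) (fun c => f ((n : ℤ) - c)) i (C.erase e) *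
        (ν ((n : ℤ) - e) - M ((n : ℤ) - e))) := by
    rw [Finset.mul_sum, Finset.mul_sum, ← Finset.sum_add_distrib, Finset.mul_sum]
    refine Finset.sum_le_sum fun n _ => ?_
    exact CH_pt (fun c => M ((n : ℤ) - c)) (fun c => f ((n : ℤ) - c)) (fun c => ν ((n : ℤ) - c))
      (fun c => hM _) (fun c => hf _) q (fun c => hν _) j i hi C hC.2
  have h3 := mul_le_mul_of_nonneg_left h2 (hs C)
  refine le_trans (le_of_eq ?_) (h3.trans (le_of_eq ?_)) <;> ring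

theorem CH_last (J : Finset ℕ) (A : Finset ℤ) (f M : ℤ → ℝ) (s : Finset ℤ → ℝ) (j : ℕ) :
    ZZ J A f M s (j + 1) j = ∑ C ∈ Finset.powersetCard (j + 1) A, s C * ∑ e ∈ C, ∑ n ∈ J,
      (∏ c ∈ C.erase e, M ((n : ℤ) - c)) * f ((n : ℤ) - e) := by
  unfold ZZ
  refine Finset.sum_congr rfl fun C hC => ?_
  rw [Finset.mem_powersetCard] at hC
  congr 1
  symm
  refine Finset.sum_nbij (fun e => C.erase e) ?_ ?_ ?_ ?_
  · intro e he
    rw [Finset.mem_powersetCard, Finset.card_erase_of_mem he, hC.2]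
    exact ⟨Finset.erase_subset _ _, rfl⟩
  · intro e he e' he' h
    by_contra hne
    have h1 : e ∈ C.erase e' := Finset.mem_erase.2 ⟨hne, he⟩
    have h2 : C.erase e = C.erase e' := h
    rw [← h2] at h1
    exact (Finset.mem_erase.1 h1).1 rfl
  · intro T hT
    rw [Finset.mem_coe, Finset.mem_powersetCard] at hT
    have h1 : (C \ T).card = 1 := by
      rw [Finset.card_sdiff_of_subset hT.1, hT.2, hC.2]
      omega
    obtain ⟨e, he⟩ := Finset.card_eq_one.1 h1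
    have he' : e ∈ C \ T := by rw [he]; exact Finset.mem_singleton_self e
    rw [Finset.mem_sdiff] at he'
    refine ⟨e, he'.1, ?_⟩
    have h2 : T ⊆ C.erase e := fun c hc => Finset.mem_erase.2 ⟨fun h => he'.2 (h ▸ hc), hT.1 hc⟩
    refine (Finset.eq_of_subset_of_card_le h2 ?_).symm
    rw [Finset.card_erase_of_mem he'.1, hC.2, hT.2]
    omega
  · intro e he
    refine Finset.sum_congr rfl fun n _ => ?_
    have h1 : C \ C.erase e = {e} := by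
      ext c
      simp only [Finset.mem_sdiff, Finset.mem_erase, Finset.mem_singleton]
      constructor
      · rintro ⟨h2, h3⟩
        by_contra h4
        exact h3 ⟨h4, h2⟩
      · rintro rfl
        exact ⟨he, fun h => h.1 rfl⟩
    rw [h1, Finset.prod_singleton]

theorem CH_iter (J : Finset ℕ) (A : Finset ℤ) (f M ν : ℤ → ℝ) (hf : ∀ n, 0 ≤ f n) (hM : ∀ n, 0 ≤ M n)
    (q : ℝ) (hq : 1 ≤ q) (hν : ∀ n, f n ≤ q * ν n) (s : Finset ℤ → ℝ) (hs : ∀ C, 0 ≤ s C) (j : ℕ) (E : ℝ) (hE : 0 ≤ E)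
    (h : ∀ i < j, ER J A f M ν s j i ≤ E) :
    ∑ C ∈ Finset.powersetCard (j + 1) A, s C * ∑ n ∈ J, ∏ c ∈ C, f ((n : ℤ) - c) ≤
      q ^ j * (ZZ J A f M s (j + 1) j / ((j : ℝ) + 1)) + j * q ^ j * E := by
  have hq0 : 0 ≤ q := by linarith
  set Z : ℕ → ℝ := fun i => ZZ J A f M s (j + 1) i / ((j + 1).choose i : ℝ) with hZ
  have hstep : ∀ i < j, Z i ≤ q * Z (i + 1) + q * E := by
    intro i hi
    have h1 := CH_step J A f M ν hf hM q hq0 hν s hs j i hi.le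
    have h2 := h i hi
    have hc : ((j + 1).choose (i + 1) : ℝ) * ((i : ℝ) + 1) = ((j + 1).choose i : ℝ) * ((j : ℝ) + 1 - i) := by
      have h3 := Nat.choose_succ_right_eq (j + 1) i
      have h4 : (((j + 1).choose (i + 1) * (i + 1) : ℕ) : ℝ) = (((j + 1).choose i * (j + 1 - i) : ℕ) : ℝ) :=
        congrArg Nat.cast h3
      rw [Nat.cast_mul, Nat.cast_mul, Nat.cast_sub (by omega)] at h4
      push_cast at h4
      exact h4
    have hp1 : (1 : ℝ) ≤ ((j + 1).choose (i + 1) : ℝ) := by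
      exact_mod_cast Nat.choose_pos (by omega)
    have hp0 : (1 : ℝ) ≤ ((j + 1).choose i : ℝ) := by
      exact_mod_cast Nat.choose_pos (by omega)
    have hi0 : (0 : ℝ) ≤ i := Nat.cast_nonneg i
    set D : ℝ := ((j + 1).choose (i + 1) : ℝ) * ((i : ℝ) + 1) with hD
    have hD1 : 1 ≤ D := by
      rw [hD]; nlinarith
    have hji : (0 : ℝ) < (j : ℝ) + 1 - i := by
      have : (i : ℝ) < j := by exact_mod_cast hi
      linarith
    have e1 : Z i = (((j : ℝ) + 1 - i) * ZZ J A f M s (j + 1) i) / D := by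
      simp only [hZ]
      rw [hc]
      field_simp
    have e2 : q * Z (i + 1) + q * E / D = (q * (((i : ℝ) + 1) * ZZ J A f M s (j + 1) (i + 1) + E)) / D := by
      simp only [hZ, hD]
      field_simp
    have h5 : q * (((i : ℝ) + 1) * ZZ J A f M s (j + 1) (i + 1) + ER J A f M ν s j i) ≤
        q * (((i : ℝ) + 1) * ZZ J A f M s (j + 1) (i + 1) + E) :=
      mul_le_mul_of_nonneg_left (by linarith) hq0
    have h6 : Z i ≤ q * Z (i + 1) + q * E / D := by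
      rw [e1, e2]
      exact div_le_div_of_nonneg_right (h1.trans h5) (by linarith)
    have h7 : q * E / D ≤ q * E := div_le_self (by positivity) hD1
    linarith
  have hind : ∀ i ≤ j, Z 0 ≤ q ^ i * Z i + i * q ^ i * E := by
    intro i
    induction i with
    | zero => intro _; simp
    | succ i ih =>
      intro hi
      have h1 := ih (by omega)
      have h2 := hstep i (by omega)
      have hqi : 0 ≤ q ^ i := pow_nonneg hq0 i
      have h3 := mul_le_mul_of_nonneg_left h2 hqi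
      have h4 : (i : ℝ) * q ^ i * E ≤ i * (q ^ i * q) * E := by
        have : q ^ i ≤ q ^ i * q := le_mul_of_one_le_right hqi hq
        gcongr
      calc Z 0 ≤ q ^ i * Z i + i * q ^ i * E := h1
        _ ≤ q ^ i * (q * Z (i + 1) + q * E) + i * (q ^ i * q) * E := by linarith
        _ = q ^ (i + 1) * Z (i + 1) + ((i + 1 : ℕ) : ℝ) * q ^ (i + 1) * E := by
          rw [pow_succ]; push_cast; ring
  have hfin := hind j le_rfl
  have e0 : Z 0 = ∑ C ∈ Finset.powersetCard (j + 1) A, s C * ∑ n ∈ J, ∏ c ∈ C, f ((n : ℤ) - c) := by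
    simp only [hZ, Nat.choose_zero_right, Nat.cast_one, div_one]
    unfold ZZ
    refine Finset.sum_congr rfl fun C _ => ?_
    rw [Finset.powersetCard_zero, Finset.sum_singleton]
    congr 1
    refine Finset.sum_congr rfl fun n _ => ?_
    rw [Finset.prod_empty, one_mul, Finset.sdiff_empty]
  have ej : Z j = ZZ J A f M s (j + 1) j / ((j : ℝ) + 1) := by
    simp only [hZ]
    rw [show (j + 1).choose j = j + 1 from Nat.choose_succ_self_right j]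
    push_cast
    ring
  rw [e0, ej] at hfin
  exact hfin

end Pool.Agent.H96.AS
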