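import Pool.Agent.H96.AS.Df
import Pool.Agent.H12.DM.Bb

/-!
# MOM: the moments of `BA`

`w` fixed, `W = WW w > 0`, all averages over `n < W`; `BA w A n = ∑_{e∈A} Mm w (n-e) ≥ 0`, `Mm w ≤ wp w`, `(Mm w)^2 = wp w * Mm w`.
* `MOM_one`: the average of `Mm w (n - e)` is `1` (`Mm_period`; `Mm w` has average `1`: the number of residues coprime to `W` is `φ(W)`; see `Mm_sum`/`Mm_avg` in `Pool/Agent/H12/DM`), so `BB w A 1 = |A|`.
* `MOM_cheb` (Chebyshev): `avg(B^j) * avg(B) ≤ avg(B^(j+1))` for `B ≥ 0` (`Finset.sum_mul_sum_le…`, `Monovary`/`monovaryOn` for `B^j`, `B`: `MonovaryOn.sum_mul_sum_le_card_mul_sum` or from `(B(n)^j - B(n')^j)(B(n) - B(n')) ≥ 0` summed over `n, n'`).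
* `MOM_lo`: `CV_exp_lo` (pointwise, `a d = Mm w (n-d)`), average; `Sy w C = avgP (WW w) (∏_{h∈C} Mm w (t-h))` (`Pool/Agent/H6/AE/Sgm.lean`; for `w = yy x` this is `sW x C`; here it is written out).
* `MOM_up`: `CV_exp_up` with `B₀ = wp w`.
* `MOM_up2`: from `MOM_up` and `MOM_cheb`: `(j+1)^2 wp w * BB j ≤ (j+1)^2 (wp w/|A|) BB (j+1) ≤ (1/2) BB (j+1)`.
-/

set_option autoImplicit false

namespace Pool.Agent.H96.AS

open Finset Pool.Agent.H17 Pool.Agent.H6.MF Pool.Agent.H6.MB Pool.Agent.H12.DM Pool.Agent.H6.AE Pool.Agent.H96.AE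

lemma MOM_avgM (w : ℕ) (e : ℤ) : avgP (WW w) (fun n => Mm w (n - e)) = 1 := by
  have hper : ∀ n : ℤ, Mm w (n + (WW w : ℕ) - e) = Mm w (n - e) := by
    intro n
    have h := Bb_Mper w (n - e)
    rw [← h]
    congr 1
    ring
  have h1 := Bb_refl (fun n => Mm w (n - e)) (WW w) hper e
  have h2 := Bb_Mmean w 0
  unfold avgP
  rw [← h2]
  congr 1
  rw [← h1]
  refine Finset.sum_congr rfl fun i _ => ?_
  congr 1
  ring

theorem MOM_one (w : ℕ) (A : Finset ℤ) : BB w A 1 = (A.card : ℝ) := by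
  unfold BB
  simp only [pow_one]
  unfold BA
  rw [← Bb_avg_sum (WW w) A (fun e n => Mm w (n - e))]
  rw [Finset.sum_congr rfl fun e _ => MOM_avgM w e]
  simp

theorem MOM_cheb (w : ℕ) (A : Finset ℤ) (j : ℕ) : BB w A j * (A.card : ℝ) ≤ BB w A (j + 1) := by
  rw [← MOM_one w A]
  have hW := WW_pos_real w
  have hmono : MonovaryOn (fun n : ℕ => BA w A (n : ℤ) ^ j) (fun n : ℕ => BA w A (n : ℤ))
      (Finset.range (WW w) : Set ℕ) := by
    intro i _ k _ hik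
    exact pow_le_pow_left₀ (BA_nonneg _ _ _) hik.le j
  have h := hmono.sum_mul_sum_le_card_mul_sum
  rw [Finset.card_range] at h
  unfold BB avgP
  simp only [pow_one]
  rw [div_mul_div_comm, div_le_div_iff₀ (mul_pos hW hW) hW]
  have h2 : ∑ i ∈ Finset.range (WW w), BA w A (i : ℤ) ^ j * BA w A (i : ℤ) =
      ∑ i ∈ Finset.range (WW w), BA w A (i : ℤ) ^ (j + 1) :=
    Finset.sum_congr rfl fun i _ => (pow_succ _ _).symm
  rw [h2] at h
  have h3 := mul_le_mul_of_nonneg_right h hW.le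
  calc _ ≤ _ := h3
    _ = _ := by ring

theorem MOM_lo (w : ℕ) (A : Finset ℤ) (j : ℕ) :
    (j.factorial : ℝ) * ∑ C ∈ Finset.powersetCard j A, avgP (WW w) (fun t => ∏ h ∈ C, Mm w (t - h)) ≤ BB w A j := by
  rw [Bb_avg_sum, ← BLK_smul]
  unfold BB
  refine BLK_mono fun n => ?_
  exact CV_exp_lo A (fun h => Mm w (n - h)) (fun _ => Mm_nonneg _ _) j

theorem MOM_up (w : ℕ) (A : Finset ℤ) (j : ℕ) :
    BB w A (j + 1) ≤ ((j + 1).factorial : ℝ) *
      ∑ C ∈ Finset.powersetCard (j + 1) A, avgP (WW w) (fun t => ∏ h ∈ C, Mm w (t - h))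
      + ((j : ℝ) + 1) ^ 2 * wp w * BB w A j := by
  rw [Bb_avg_sum, ← BLK_smul]
  unfold BB
  rw [← BLK_smul, ← BLK_add]
  refine BLK_mono fun n => ?_
  exact CV_exp_up A (fun h => Mm w (n - h)) (wp w) (fun _ => Mm_nonneg _ _) (fun _ => Mm_le _ _) j

theorem MOM_up2 (w : ℕ) (A : Finset ℤ) (j : ℕ) (h : 2 * ((j : ℝ) + 1) ^ 2 * wp w ≤ (A.card : ℝ)) :
    BB w A (j + 1) ≤ 2 * (((j + 1).factorial : ℝ) *
      ∑ C ∈ Finset.powersetCard (j + 1) A, avgP (WW w) (fun t => ∏ h ∈ C, Mm w (t - h))) := by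
  have h1 := MOM_up w A j
  have h2 := MOM_cheb w A j
  have h3 := mul_le_mul_of_nonneg_left h (BB_nonneg w A j)
  nlinarith

end Pool.Agent.H96.AS
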