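import Pool.Agent.H96.AS.CLS
import Pool.Agent.H96.AS.MOM

/-!
# OS: the one-step lemma

`w = yy x`, `W = WW w`, `N = ⌊x⌋₊ + 1`, `M n = Mm w n` (period `W`, values `0` and `wp w`), `B = BA w A` (period `W`), `P_S(n) = ∏_{c∈S} (1 + V(n-c))`, `u(n) = V n β n - 1`, `Y_S(n) = ∑_{e ∈ A \ S} σ S e * M(n-e) u(n-e)`.
1. The sum is at most `A₀ ∑_S ∑_{n ∈ JJ} (∏_S M(n-c)) P_S(n) |Y_S(n)|`. If `B(n) = 0` then all `M(n-e) = 0` (`e ∈ A`), so `Y_S(n) = 0`. Cauchy-Schwarz over the pairs `(S,n)` with `B(n) > 0`: `≤ A₀ (Q₁ Q₂)^{1/2}`, `Q₁ = ∑_S ∑_n (∏_S M) P_S B(n)`, `Q₂ = ∑_S ∑_{n, B(n)>0} (∏_S M) P_S Y_S(n)^2/B(n)`.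
2. Split `JJ` into the classes `JC x H t`, `t < W`: there `M(n-c) = M(t-c)`, `B(n) = B(t)` (`Mm_period`, `n = t + W * k`). `Q₁ = ∑_t B(t) ∑_S ∏_S M(t-c) ∑_{n∈JC} P_S(n) ≤ 2^(j+3) (N/W) ∑_t B(t) * B(t)^j` by the first part of `CLS` and
   `∑_{S ∈ powersetCard j A} ∏_S M(t-c) ≤ j! ∑ ≤ B(t)^j` (`CV_exp_lo`, `j! ≥ 1`). So `Q₁ ≤ 2^(j+3) N BB w A (j+1)`.
3. `Q₂ = ∑_{t, B(t)>0} (1/B(t)) ∑_S ∏_S M(t-c) ∑_{e,e' ∈ A\S} σ σ' M(t-e) M(t-e') ∑_{n∈JC} P_S(n) u(n-e) u(n-e')`. For `e ≠ e'` the inner sum is `≤ 2^(j+5) (1/2)^b N/W` (second part of `CLS`; the coefficients `σ σ' M M` are `≥ 0`, `σ ≤ 1`), `∑_{e,e'} M(t-e) M(t-e') ≤ B(t)^2`; for `e = e'`: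
   `M(t-e)^2 = wp w * M(t-e)` and the third part of `CLS`. So `Q₂ ≤ (N/W) ∑_t B(t)^(j-1) (2^(j+5) (1/2)^b B(t)^2 + 2^(j+4) (C+1) (wp w * (EP w z)⁻¹) B(t))` (as sums of `B^{j+1}` and `B^j`, `B(t)^j/B(t) * B(t)^2 = B(t)^(j+1)`, etc.), `wp w * (EP w z)⁻¹ = (EP 0 z)⁻¹ ≤ log z/c ≤ L/c`
   (`wp_eq`, `EP_mul`, `mer2`, as in the proof of `CSm`/`Cd`). With `BB j ≤ BB (j+1)/|A|` (`MOM_cheb`): `Q₂ ≤ 2^(j+5) ((1/2)^b + C₁ L/|A|) N BB (j+1)`, `C₁ = (C+1)/c`.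
4. `√(2^(j+3) 2^(j+5)) = 2^(j+4)`.
-/

set_option autoImplicit false

namespace Pool.Agent.H96.AS

open Finset Pool.Agent.H17 Pool.Agent.H6.MF Pool.Agent.H6.MB Pool.Agent.H12.DM Pool.Agent.H6.AE Pool.Agent.H96.AE

private lemma OS_cls {W : ℕ} (hW : 0 < W) (J : Finset ℕ) (F : ℕ → ℝ) :
    ∑ n ∈ J, F n = ∑ t ∈ Finset.range W, ∑ n ∈ J.filter (fun n => n % W = t), F n :=
  (Finset.sum_fiberwise_of_maps_to (fun n _ => Finset.mem_range.mpr (Nat.mod_lt n hW)) F).symm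

private lemma OS_per {W : ℕ} {M : ℤ → ℝ} (hper : ∀ n k : ℤ, M (n + k * (W : ℤ)) = M n) {n t : ℕ}
    (h : n % W = t) (e : ℤ) : M ((n : ℤ) - e) = M ((t : ℤ) - e) := by
  have h1 : (n : ℤ) = (t : ℤ) + ((n / W : ℕ) : ℤ) * (W : ℤ) := by
    have h2 := Nat.div_add_mod n W
    rw [h] at h2
    rw [← h2]
    push_cast
    have : ((n / W : ℕ) : ℤ) = (((W * (n / W) + t) / W : ℕ) : ℤ) := by rw [h2]
    push_cast at this ⊢
    rw [← this]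
    ring
  rw [h1, ← hper ((t : ℤ) - e) ((n / W : ℕ) : ℤ)]
  congr 1
  ring

private lemma OS_sum (A : Finset ℤ) (M : ℤ → ℝ) (hM : ∀ n, 0 ≤ M n) (j : ℕ) (t : ℤ) :
    ∑ S ∈ Finset.powersetCard j A, ∏ c ∈ S, M (t - c) ≤ (∑ e ∈ A, M (t - e)) ^ j := by
  have h1 := CV_exp_lo A (fun h => M (t - h)) (fun _ => hM _) j
  have h2 : (1 : ℝ) ≤ (j.factorial : ℝ) := by exact_mod_cast Nat.succ_le_of_lt j.factorial_pos
  have h3 : 0 ≤ ∑ S ∈ Finset.powersetCard j A, ∏ c ∈ S, M (t - c) :=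
    Finset.sum_nonneg fun S _ => Finset.prod_nonneg fun c _ => hM _
  nlinarith

private lemma OS_Q1 {W : ℕ} (hW : 0 < W) {M : ℤ → ℝ} (hper : ∀ n k : ℤ, M (n + k * (W : ℤ)) = M n)
    (hM : ∀ n, 0 ≤ M n) (A : Finset ℤ) (j : ℕ) (J : Finset ℕ) (P : Finset ℤ → ℕ → ℝ) (α : ℝ)
    (hα : 0 ≤ α)
    (h : ∀ S ∈ Finset.powersetCard j A, ∀ t ∈ Finset.range W,
      ∑ n ∈ J.filter (fun n => n % W = t), P S n ≤ α) :
    ∑ S ∈ Finset.powersetCard j A, ∑ n ∈ J, (∏ c ∈ S, M ((n : ℤ) - c)) * P S n *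
      (∑ e ∈ A, M ((n : ℤ) - e)) ≤ α * ∑ t ∈ Finset.range W, (∑ e ∈ A, M ((t : ℤ) - e)) ^ (j + 1) := by
  have hB : ∀ t : ℤ, 0 ≤ ∑ e ∈ A, M (t - e) := fun t => Finset.sum_nonneg fun _ _ => hM _
  have h1 : ∀ S ∈ Finset.powersetCard j A, ∑ n ∈ J, (∏ c ∈ S, M ((n : ℤ) - c)) * P S n *
      (∑ e ∈ A, M ((n : ℤ) - e)) ≤ ∑ t ∈ Finset.range W,
        (∏ c ∈ S, M ((t : ℤ) - c)) * ((∑ e ∈ A, M ((t : ℤ) - e)) * α) := by
    intro S hS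
    rw [OS_cls hW]
    refine Finset.sum_le_sum fun t ht => ?_
    have e1 : ∑ n ∈ J.filter (fun n => n % W = t), (∏ c ∈ S, M ((n : ℤ) - c)) * P S n *
        (∑ e ∈ A, M ((n : ℤ) - e)) = (∏ c ∈ S, M ((t : ℤ) - c)) * ((∑ e ∈ A, M ((t : ℤ) - e)) *
          ∑ n ∈ J.filter (fun n => n % W = t), P S n) := by
      rw [Finset.mul_sum, Finset.mul_sum]
      refine Finset.sum_congr rfl fun n hn => ?_
      have hnt := (Finset.mem_filter.mp hn).2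
      rw [Finset.prod_congr rfl fun c _ => OS_per hper hnt c,
        Finset.sum_congr rfl fun e _ => OS_per hper hnt e]
      ring
    rw [e1]
    refine mul_le_mul_of_nonneg_left ?_ (Finset.prod_nonneg fun _ _ => hM _)
    exact mul_le_mul_of_nonneg_left (h S hS t ht) (hB _)
  refine (Finset.sum_le_sum h1).trans ?_
  rw [Finset.sum_comm, Finset.mul_sum]
  refine Finset.sum_le_sum fun t _ => ?_
  rw [← Finset.sum_mul]
  have h2 := OS_sum A M hM j (t : ℤ)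
  calc _ ≤ (∑ e ∈ A, M ((t : ℤ) - e)) ^ j * ((∑ e ∈ A, M ((t : ℤ) - e)) * α) :=
        mul_le_mul_of_nonneg_right h2 (mul_nonneg (hB _) hα)
    _ = _ := by ring

private lemma OS_in (J : Finset ℕ) (E A : Finset ℤ) (hEA : E ⊆ A) (Pn : ℕ → ℝ) (u : ℤ → ℝ)
    (c m : ℤ → ℝ) (β γ φ : ℝ) (hβ : 0 ≤ β) (hγ : 0 ≤ γ) (hc : ∀ e, 0 ≤ c e ∧ c e ≤ m e)
    (hm : ∀ e, m e ^ 2 = φ * m e)
    (h2 : ∀ e ∈ E, ∀ e' ∈ E, e ≠ e' → ∑ n ∈ J, Pn n * (u ((n : ℤ) - e) * u ((n : ℤ) - e')) ≤ β)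
    (h3 : ∀ e ∈ E, ∑ n ∈ J, Pn n * u ((n : ℤ) - e) ^ 2 ≤ γ) :
    ∑ n ∈ J, Pn n * (∑ e ∈ E, c e * u ((n : ℤ) - e)) ^ 2 ≤
      β * (∑ e ∈ A, m e) ^ 2 + γ * φ * ∑ e ∈ A, m e := by
  have hm0 : ∀ e, 0 ≤ m e := fun e => (hc e).1.trans (hc e).2
  have e1 : ∑ n ∈ J, Pn n * (∑ e ∈ E, c e * u ((n : ℤ) - e)) ^ 2
      = ∑ e ∈ E, ∑ e' ∈ E, c e * c e' * ∑ n ∈ J, Pn n * (u ((n : ℤ) - e) * u ((n : ℤ) - e')) := by
    have : ∀ n ∈ J, Pn n * (∑ e ∈ E, c e * u ((n : ℤ) - e)) ^ 2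
        = ∑ e ∈ E, ∑ e' ∈ E, c e * c e' * (Pn n * (u ((n : ℤ) - e) * u ((n : ℤ) - e'))) := by
      intro n _
      rw [pow_two, Finset.sum_mul_sum, Finset.mul_sum]
      refine Finset.sum_congr rfl fun e _ => ?_
      rw [Finset.mul_sum]
      refine Finset.sum_congr rfl fun e' _ => ?_
      ring
    rw [Finset.sum_congr rfl this, Finset.sum_comm]
    refine Finset.sum_congr rfl fun e _ => ?_
    rw [Finset.sum_comm]
    refine Finset.sum_congr rfl fun e' _ => ?_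
    rw [Finset.mul_sum]
  have e2 : ∀ e ∈ E, ∀ e' ∈ E, c e * c e' * ∑ n ∈ J, Pn n * (u ((n : ℤ) - e) * u ((n : ℤ) - e'))
      ≤ β * (c e * c e') + (if e = e' then γ * (c e * c e) else 0) := by
    intro e he e' he'
    have hcc : 0 ≤ c e * c e' := mul_nonneg (hc e).1 (hc e').1
    by_cases h : e = e'
    · subst h
      rw [if_pos rfl]
      have h4 : ∑ n ∈ J, Pn n * (u ((n : ℤ) - e) * u ((n : ℤ) - e)) ≤ γ := by
        refine le_trans (le_of_eq ?_) (h3 e he)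
        refine Finset.sum_congr rfl fun n _ => ?_
        ring
      have h5 := mul_le_mul_of_nonneg_left h4 hcc
      have h6 : 0 ≤ β * (c e * c e) := mul_nonneg hβ hcc
      linarith
    · rw [if_neg h]
      have h5 := mul_le_mul_of_nonneg_left (h2 e he e' he' h) hcc
      linarith
  rw [e1]
  refine (Finset.sum_le_sum fun e he => Finset.sum_le_sum fun e' he' => e2 e he e' he').trans ?_
  have e3 : ∑ e ∈ E, ∑ e' ∈ E, (β * (c e * c e') + (if e = e' then γ * (c e * c e) else 0))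
      = β * (∑ e ∈ E, c e) ^ 2 + γ * ∑ e ∈ E, c e * c e := by
    simp only [Finset.sum_add_distrib]
    congr 1
    · rw [pow_two, Finset.sum_mul_sum, Finset.mul_sum]
      refine Finset.sum_congr rfl fun e _ => ?_
      rw [Finset.mul_sum]
    · rw [Finset.mul_sum]
      refine Finset.sum_congr rfl fun e he => ?_
      rw [Finset.sum_ite_eq, if_pos he]
  rw [e3]
  have e4 : ∑ e ∈ E, c e ≤ ∑ e ∈ A, m e :=
    (Finset.sum_le_sum fun e _ => (hc e).2).trans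
      (Finset.sum_le_sum_of_subset_of_nonneg hEA fun e _ _ => hm0 e)
  have e5 : ∑ e ∈ E, c e * c e ≤ φ * ∑ e ∈ A, m e := by
    rw [Finset.mul_sum]
    refine le_trans (Finset.sum_le_sum fun e _ => ?_)
      (Finset.sum_le_sum_of_subset_of_nonneg (f := fun e => φ * m e) hEA fun e _ _ => ?_)
    · rw [← hm e, pow_two]
      exact mul_le_mul (hc e).2 (hc e).2 (hc e).1 (hm0 e)
    · rw [← hm e]
      exact sq_nonneg _
  have e6 : 0 ≤ ∑ e ∈ E, c e := Finset.sum_nonneg fun e _ => (hc e).1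
  have e7 := mul_le_mul_of_nonneg_left (pow_le_pow_left₀ e6 e4 2) hβ
  have e8 := mul_le_mul_of_nonneg_left e5 hγ
  linarith

private lemma OS_Q2 {W : ℕ} (hW : 0 < W) {M : ℤ → ℝ} (hper : ∀ n k : ℤ, M (n + k * (W : ℤ)) = M n)
    (hM : ∀ n, 0 ≤ M n) (A : Finset ℤ) (j : ℕ) (J : Finset ℕ) (P : Finset ℤ → ℕ → ℝ)
    (u : ℤ → ℝ) (σ : Finset ℤ → ℤ → ℝ) (hσ : ∀ S e, 0 ≤ σ S e ∧ σ S e ≤ 1) (β γ φ : ℝ)
    (hβ : 0 ≤ β) (hγ : 0 ≤ γ) (hφ : 0 ≤ φ) (hMφ : ∀ n, M n ^ 2 = φ * M n)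
    (h2 : ∀ S ∈ Finset.powersetCard j A, ∀ t ∈ Finset.range W, ∀ e ∈ A \ S, ∀ e' ∈ A \ S, e ≠ e' →
      ∑ n ∈ J.filter (fun n => n % W = t), P S n * (u ((n : ℤ) - e) * u ((n : ℤ) - e')) ≤ β)
    (h3 : ∀ S ∈ Finset.powersetCard j A, ∀ t ∈ Finset.range W, ∀ e ∈ A \ S,
      ∑ n ∈ J.filter (fun n => n % W = t), P S n * u ((n : ℤ) - e) ^ 2 ≤ γ) :
    ∑ S ∈ Finset.powersetCard j A, ∑ n ∈ J, (∏ c ∈ S, M ((n : ℤ) - c)) * P S n *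
      (∑ e ∈ A \ S, σ S e * (M ((n : ℤ) - e) * u ((n : ℤ) - e))) ^ 2 /
        (∑ e ∈ A, M ((n : ℤ) - e)) ≤
      β * (∑ t ∈ Finset.range W, (∑ e ∈ A, M ((t : ℤ) - e)) ^ (j + 1)) +
      γ * φ * (∑ t ∈ Finset.range W, (∑ e ∈ A, M ((t : ℤ) - e)) ^ j) := by
  have hB : ∀ t : ℤ, 0 ≤ ∑ e ∈ A, M (t - e) := fun t => Finset.sum_nonneg fun _ _ => hM _
  have h1 : ∀ S ∈ Finset.powersetCard j A, ∑ n ∈ J, (∏ c ∈ S, M ((n : ℤ) - c)) * P S n *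
      (∑ e ∈ A \ S, σ S e * (M ((n : ℤ) - e) * u ((n : ℤ) - e))) ^ 2 /
        (∑ e ∈ A, M ((n : ℤ) - e)) ≤ ∑ t ∈ Finset.range W,
        (∏ c ∈ S, M ((t : ℤ) - c)) * ((β * (∑ e ∈ A, M ((t : ℤ) - e)) ^ 2 +
          γ * φ * ∑ e ∈ A, M ((t : ℤ) - e)) / (∑ e ∈ A, M ((t : ℤ) - e))) := by
    intro S hS
    rw [OS_cls hW]
    refine Finset.sum_le_sum fun t ht => ?_
    have e1 : ∑ n ∈ J.filter (fun n => n % W = t), (∏ c ∈ S, M ((n : ℤ) - c)) * P S n *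
        (∑ e ∈ A \ S, σ S e * (M ((n : ℤ) - e) * u ((n : ℤ) - e))) ^ 2 /
          (∑ e ∈ A, M ((n : ℤ) - e)) = (∏ c ∈ S, M ((t : ℤ) - c)) *
          ((∑ n ∈ J.filter (fun n => n % W = t), P S n *
            (∑ e ∈ A \ S, (σ S e * M ((t : ℤ) - e)) * u ((n : ℤ) - e)) ^ 2) /
            (∑ e ∈ A, M ((t : ℤ) - e))) := by
      rw [Finset.sum_div, Finset.mul_sum]
      refine Finset.sum_congr rfl fun n hn => ?_
      have hnt := (Finset.mem_filter.mp hn).2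
      have a1 : ∑ e ∈ A \ S, σ S e * (M ((n : ℤ) - e) * u ((n : ℤ) - e))
          = ∑ e ∈ A \ S, (σ S e * M ((t : ℤ) - e)) * u ((n : ℤ) - e) := by
        refine Finset.sum_congr rfl fun e _ => ?_
        rw [OS_per hper hnt e]
        ring
      rw [Finset.prod_congr rfl fun c _ => OS_per hper hnt c,
        Finset.sum_congr (s₁ := A) rfl fun e _ => OS_per hper hnt e, a1]
      ring
    rw [e1]
    refine mul_le_mul_of_nonneg_left ?_ (Finset.prod_nonneg fun _ _ => hM _)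
    refine div_le_div_of_nonneg_right ?_ (hB _)
    exact OS_in (J.filter (fun n => n % W = t)) (A \ S) A Finset.sdiff_subset (P S) u
      (fun e => σ S e * M ((t : ℤ) - e)) (fun e => M ((t : ℤ) - e)) β γ φ hβ hγ
      (fun e => ⟨mul_nonneg (hσ S e).1 (hM _), by
        have := mul_le_mul_of_nonneg_right (hσ S e).2 (hM ((t : ℤ) - e))
        linarith⟩)
      (fun e => hMφ _) (h2 S hS t ht) (h3 S hS t ht)
  refine (Finset.sum_le_sum h1).trans ?_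
  rw [Finset.sum_comm, Finset.mul_sum, Finset.mul_sum, ← Finset.sum_add_distrib]
  refine Finset.sum_le_sum fun t _ => ?_
  rw [← Finset.sum_mul]
  have h2 := OS_sum A M hM j (t : ℤ)
  obtain ⟨B, hBd⟩ : ∃ B : ℝ, B = ∑ e ∈ A, M ((t : ℤ) - e) := ⟨_, rfl⟩
  have hB0 : 0 ≤ B := by rw [hBd]; exact hB _
  rw [← hBd] at h2 ⊢
  have h5 : 0 ≤ (β * B ^ 2 + γ * φ * B) / B := by positivity
  refine (mul_le_mul_of_nonneg_right h2 h5).trans ?_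
  rcases hB0.eq_or_lt with h0 | h0
  · rw [← h0]
    simp only [div_zero, mul_zero]
    positivity
  · apply le_of_eq
    field_simp
    ring

private lemma OS_cs {ι κ : Type*} (s : Finset ι) (r : Finset κ) (om Y B : ι → κ → ℝ)
    (hom : ∀ i ∈ s, ∀ k ∈ r, 0 ≤ om i k) (hB : ∀ i ∈ s, ∀ k ∈ r, 0 ≤ B i k)
    (h0 : ∀ i ∈ s, ∀ k ∈ r, B i k = 0 → Y i k = 0) :
    (∑ i ∈ s, ∑ k ∈ r, om i k * |Y i k|) ^ 2 ≤
      (∑ i ∈ s, ∑ k ∈ r, om i k * B i k) * (∑ i ∈ s, ∑ k ∈ r, om i k * Y i k ^ 2 / B i k) := by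
  rw [← Finset.sum_product' s r, ← Finset.sum_product' s r, ← Finset.sum_product' s r]
  apply Finset.sum_sq_le_sum_mul_sum_of_sq_le_mul
  · intro p hp
    rw [Finset.mem_product] at hp
    exact mul_nonneg (hom _ hp.1 _ hp.2) (hB _ hp.1 _ hp.2)
  · intro p hp
    rw [Finset.mem_product] at hp
    have := hom _ hp.1 _ hp.2
    have := hB _ hp.1 _ hp.2
    positivity
  · intro p hp
    rw [Finset.mem_product] at hp
    rw [mul_pow, sq_abs]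
    apply le_of_eq
    by_cases h : B p.1 p.2 = 0
    · rw [h, h0 _ hp.1 _ hp.2 h]
      ring
    · field_simp

private theorem OS_ev (m b : ℕ) : ∃ X : ℝ, ∀ x : ℝ, X ≤ x →
    1 ≤ x ∧ 1 ≤ Real.log x ∧ 2 ≤ x ^ dlm m b ∧ (yy x : ℝ) ≤ x ^ dlm m b := by
  have h1 : ∀ᶠ x : ℝ in Filter.atTop, 1 ≤ x ∧ 1 ≤ Real.log x ∧ 2 ≤ x ^ dlm m b ∧ (yy x : ℝ) ≤ x ^ dlm m b := by
    have e1 := tendsto_rpow_atTop (dlm_pos m b)
    have e3 := (isLittleO_log_rpow_atTop (dlm_pos m b)).bound (show (0 : ℝ) < 1 by norm_num)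
    filter_upwards [Filter.eventually_ge_atTop (1 : ℝ), Real.tendsto_log_atTop.eventually_ge_atTop 1,
      e1.eventually_ge_atTop 2, e3] with x a1 a2 a3 a5
    refine ⟨a1, a2, a3, ?_⟩
    rw [one_mul, Real.norm_of_nonneg (by linarith), Real.norm_of_nonneg (by positivity)] at a5
    have hll : 0 ≤ Real.log (Real.log x) := Real.log_nonneg a2
    have b1 : (yy x : ℝ) ≤ Real.log (Real.log x) / 100 := Nat.floor_le (by positivity)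
    have b2 : Real.log (Real.log x) ≤ Real.log x - 1 := Real.log_le_sub_one_of_pos (by linarith)
    linarith
  exact Filter.eventually_atTop.1 h1

/-- final computation -/
private lemma OS_num {T Q1 Q2 N W a b' g' B1 B0 φ q L A' C c : ℝ} {j b : ℕ} (hN : 0 ≤ N) (hW : 0 < W)
    (hB1 : 0 ≤ B1) (hB0 : 0 ≤ B0) (hA' : 0 < A') (hC : 0 < C) (hc : 0 < c) (hL : 0 ≤ L)
    (ha : a = 2 ^ (j + 3) * (N / W)) (hb' : b' = 2 ^ (j + 5) * (1 / 2 : ℝ) ^ b * (N / W))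
    (hg' : g' = 2 ^ (j + 4) * (C + 1) * q * (N / W))
    (hq : q * φ ≤ L / c) (hcheb : B0 * A' ≤ B1)
    (hQ1 : Q1 ≤ a * (B1 * W)) (hQ2 : Q2 ≤ b' * (B1 * W) + g' * φ * (B0 * W)) (hQ20 : 0 ≤ Q2)
    (hT : T ^ 2 ≤ Q1 * Q2) :
    T ≤ 2 ^ (j + 4) * Real.sqrt ((1 / 2 : ℝ) ^ b + (C + 1) / c * L / A') * N * B1 := by
  obtain ⟨R, hR⟩ : ∃ R : ℝ, R = (1 / 2 : ℝ) ^ b + (C + 1) / c * L / A' := ⟨_, rfl⟩
  have hR0 : 0 ≤ R := by rw [hR]; positivity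
  rw [← hR]
  have e1 : a * (B1 * W) = 2 ^ (j + 3) * N * B1 := by rw [ha]; field_simp
  have hB0' : B0 ≤ B1 / A' := by rw [le_div_iff₀ hA']; exact hcheb
  have e2 : b' * (B1 * W) + g' * φ * (B0 * W) ≤ 2 ^ (j + 5) * N * B1 * R := by
    have f1 : b' * (B1 * W) = 2 ^ (j + 5) * N * B1 * (1 / 2 : ℝ) ^ b := by
      rw [hb']; field_simp
    have f2 : g' * φ * (B0 * W) = 2 ^ (j + 4) * (C + 1) * N * ((q * φ) * B0) := by
      rw [hg']; field_simp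
    have f3 : (q * φ) * B0 ≤ (L / c) * (B1 / A') := by
      have g1 := mul_le_mul_of_nonneg_right hq hB0
      have g2 := mul_le_mul_of_nonneg_left hB0' (show 0 ≤ L / c by positivity)
      linarith
    have f4 : 2 ^ (j + 4) * (C + 1) * N * ((q * φ) * B0)
        ≤ 2 ^ (j + 4) * (C + 1) * N * ((L / c) * (B1 / A')) :=
      mul_le_mul_of_nonneg_left f3 (by positivity)
    have f5 : 2 ^ (j + 4) * (C + 1) * N * ((L / c) * (B1 / A'))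
        = 2 ^ (j + 4) * N * B1 * ((C + 1) / c * L / A') := by
      field_simp
    have f6 : (0 : ℝ) ≤ 2 ^ (j + 4) * N * B1 * ((C + 1) / c * L / A') := by positivity
    have f7 : (2 : ℝ) ^ (j + 5) = 2 * 2 ^ (j + 4) := by rw [pow_succ]; ring
    rw [f1, f2, hR]
    rw [f5] at f4
    have f8 : 2 ^ (j + 5) * N * B1 * ((1 / 2 : ℝ) ^ b + (C + 1) / c * L / A')
        = 2 ^ (j + 5) * N * B1 * (1 / 2 : ℝ) ^ b
          + 2 * (2 ^ (j + 4) * N * B1 * ((C + 1) / c * L / A')) := by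
      rw [f7]; ring
    rw [f8]
    linarith
  rw [e1] at hQ1
  have h1 : T ^ 2 ≤ (2 ^ (j + 4) * Real.sqrt R * N * B1) ^ 2 := by
    calc T ^ 2 ≤ Q1 * Q2 := hT
      _ ≤ (2 ^ (j + 3) * N * B1) * Q2 := mul_le_mul_of_nonneg_right hQ1 hQ20
      _ ≤ (2 ^ (j + 3) * N * B1) * (2 ^ (j + 5) * N * B1 * R) :=
          mul_le_mul_of_nonneg_left (hQ2.trans e2) (by positivity)
      _ = (2 ^ (j + 4) * Real.sqrt R * N * B1) ^ 2 := by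
          rw [mul_pow, mul_pow, mul_pow, Real.sq_sqrt hR0]
          have : (2 : ℝ) ^ (j + 3) * 2 ^ (j + 5) = (2 ^ (j + 4)) ^ 2 := by
            rw [← pow_add, ← pow_mul]
            congr 1
            ring
          rw [← this]
          ring
  exact le_of_sq_le_sq h1 (by positivity)

private lemma OS_Mφ (w : ℕ) (n : ℤ) : Mm w n ^ 2 = wp w * Mm w n := by
  unfold Mm
  split_ifs <;> ring

theorem OS (m b j : ℕ) (η C : ℝ) (hη0 : 0 < η) (hη1 : η ≤ 1 / 20) (hj : j + 2 ≤ m)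
    (hm : (j : ℝ) + 4 ≤ 10 * ((m : ℝ) + 1) * η) (hC : 0 < C) : ∃ C₁ X : ℝ, 0 < C₁ ∧ ∀ x : ℝ, X ≤ x →
    ∀ V : ℤ → ℝ, GoodVm m b x V → ∀ β : ℤ → ℝ, GoodBt (dlm m b) (1 / 4 - η) C x β →
    ∀ H : ℕ, (H : ℝ) ≤ (Real.log x) ^ 2 → ∀ A : Finset ℤ, A ⊆ Finset.Icc 1 (H : ℤ) → A.Nonempty →
    ∀ A₀ : ℝ, 0 ≤ A₀ → ∀ G : Finset ℤ → ℤ → ℝ,
    (∀ S ∈ Finset.powersetCard j A, ∀ n, |G S n| ≤ A₀ * ∏ c ∈ S, (Mm (yy x) (n - c) * (1 + V (n - c)))) →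
    ∀ σ : Finset ℤ → ℤ → ℝ, (∀ S e, 0 ≤ σ S e ∧ σ S e ≤ 1) →
    |∑ S ∈ Finset.powersetCard j A, ∑ n ∈ JJ x H, G S (n : ℤ) *
        ∑ e ∈ A \ S, σ S e * (Mm (yy x) ((n : ℤ) - e) * (V ((n : ℤ) - e) * β ((n : ℤ) - e) - 1))|
      ≤ A₀ * 2 ^ (j + 4) * Real.sqrt ((1 / 2 : ℝ) ^ b + C₁ * Real.log x / (A.card : ℝ)) * ((⌊x⌋₊ : ℝ) + 1) *
        BB (yy x) A (j + 1) := by
  obtain ⟨X₁, hX₁⟩ := CLS m b j η C hη0 hη1 hj hm hC
  obtain ⟨c, hc, hmer⟩ := mer2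
  obtain ⟨X₂, hX₂⟩ := OS_ev m b
  refine ⟨(C + 1) / c, max X₁ X₂, by positivity, ?_⟩
  intro x hx V hV β hβ H hH A hA hAne A₀ hA₀ G hG σ hσ
  obtain ⟨hx1, hL1, hz2, hwz⟩ := hX₂ x ((le_max_right _ _).trans hx)
  have hcls := hX₁ x ((le_max_left _ _).trans hx) V hV β hβ H hH
  simp only [JC] at hcls
  have hlogz : Real.log (x ^ dlm m b) ≤ Real.log x := by
    rw [Real.log_rpow (by linarith)]
    have h1 := dlm_le m b
    have h2 := dlm_pos m b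
    nlinarith
  obtain ⟨w, hw⟩ : ∃ w : ℕ, w = yy x := ⟨_, rfl⟩
  obtain ⟨z, hz⟩ : ∃ z : ℝ, z = x ^ dlm m b := ⟨_, rfl⟩
  obtain ⟨N, hN⟩ : ∃ N : ℝ, N = (⌊x⌋₊ : ℝ) + 1 := ⟨_, rfl⟩
  have hN0 : 0 < N := by rw [hN]; positivity
  have hWpos := WW_pos w
  have hWr := WW_pos_real w
  have hV0 : ∀ n, 0 ≤ V n := hV.1
  rw [← hw, ← hz, ← hN] at hcls
  rw [← hw] at hG ⊢
  rw [← hz] at hz2 hwz hlogz
  rw [← hw] at hwz
  rw [← hN]
  have hper : ∀ n k : ℤ, Mm w (n + k * (WW w : ℤ)) = Mm w n := Mm_period w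
  obtain ⟨u, hu⟩ : ∃ u : ℤ → ℝ, u = fun n => V n * β n - 1 := ⟨_, rfl⟩
  obtain ⟨P, hP⟩ : ∃ P : Finset ℤ → ℕ → ℝ, P = fun (S : Finset ℤ) (n : ℕ) => ∏ c ∈ S, (1 + V ((n : ℤ) - c)) := ⟨_, rfl⟩
  have hP0 : ∀ S n, 0 ≤ P S n := by
    intro S n
    rw [hP]
    exact Finset.prod_nonneg fun c _ => by have := hV0 ((n : ℤ) - c); linarith
  obtain ⟨a, ha⟩ : ∃ a : ℝ, a = 2 ^ (j + 3) * (N / (WW w : ℝ)) := ⟨_, rfl⟩
  obtain ⟨b', hb'⟩ : ∃ b' : ℝ, b' = 2 ^ (j + 5) * (1 / 2 : ℝ) ^ b * (N / (WW w : ℝ)) := ⟨_, rfl⟩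
  obtain ⟨g', hg'⟩ : ∃ g' : ℝ, g' = 2 ^ (j + 4) * (C + 1) * (EP (w : ℝ) z)⁻¹ * (N / (WW w : ℝ)) :=
    ⟨_, rfl⟩
  have hEP0 : 0 < EP (w : ℝ) z := EP_pos _ _
  have ha0 : 0 ≤ a := by rw [ha]; positivity
  have hb0 : 0 ≤ b' := by rw [hb']; positivity
  have hg0 : 0 ≤ g' := by rw [hg']; positivity
  have hS : ∀ S ∈ Finset.powersetCard j A, S ⊆ Finset.Icc 1 (H : ℤ) ∧ S.card ≤ j := by
    intro S hS
    rw [Finset.mem_powersetCard] at hS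
    exact ⟨hS.1.trans hA, hS.2.le⟩
  have hsd : ∀ S : Finset ℤ, ∀ e ∈ A \ S, e ∈ Finset.Icc 1 (H : ℤ) \ S := by
    intro S e he
    rw [Finset.mem_sdiff] at he ⊢
    exact ⟨hA he.1, he.2⟩
  have Q1 := OS_Q1 hWpos hper (Mm_nonneg w) A j (JJ x H) P a ha0
    (fun S hS' t ht => by
      rw [hP, ha]
      exact (hcls S (hS S hS').1 (hS S hS').2 t (Finset.mem_range.mp ht)).1)
  have Q2 := OS_Q2 hWpos hper (Mm_nonneg w) A j (JJ x H) P u σ hσ b' g' (wp w) hb0 hg0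
    (wp_pos w).le (OS_Mφ w)
    (fun S hS' t ht e he e' he' hne => by
      rw [hP, hb', hu]
      exact (hcls S (hS S hS').1 (hS S hS').2 t (Finset.mem_range.mp ht)).2.1 e (hsd S e he) e'
        (hsd S e' he') hne)
    (fun S hS' t ht e he => by
      rw [hP, hg', hu]
      exact (hcls S (hS S hS').1 (hS S hS').2 t (Finset.mem_range.mp ht)).2.2 e (hsd S e he))
  have hBBj : ∀ i : ℕ, ∑ t ∈ Finset.range (WW w), (∑ e ∈ A, Mm w ((t : ℤ) - e)) ^ i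
      = BB w A i * (WW w : ℝ) := by
    intro i
    unfold BB avgP BA
    field_simp
  rw [hBBj] at Q1
  rw [hBBj, hBBj] at Q2
  obtain ⟨om, hom⟩ : ∃ om : Finset ℤ → ℕ → ℝ,
    om = fun (S : Finset ℤ) (n : ℕ) => (∏ c ∈ S, Mm w ((n : ℤ) - c)) * P S n := ⟨_, rfl⟩
  obtain ⟨Y, hY⟩ : ∃ Y : Finset ℤ → ℕ → ℝ,
    Y = fun (S : Finset ℤ) (n : ℕ) => ∑ e ∈ A \ S, σ S e * (Mm w ((n : ℤ) - e) * u ((n : ℤ) - e)) := ⟨_, rfl⟩
  have hom0 : ∀ S n, 0 ≤ om S n := by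
    intro S n
    rw [hom]
    exact mul_nonneg (Finset.prod_nonneg fun _ _ => Mm_nonneg _ _) (hP0 S n)
  have hcs := OS_cs (Finset.powersetCard j A) (JJ x H) om Y
    (fun (_ : Finset ℤ) (n : ℕ) => ∑ e ∈ A, Mm w ((n : ℤ) - e)) (fun S _ n _ => hom0 S n)
    (fun _ _ n _ => Finset.sum_nonneg fun _ _ => Mm_nonneg _ _)
    (by
      intro S _ n _ h0
      rw [Finset.sum_eq_zero_iff_of_nonneg (fun _ _ => Mm_nonneg _ _)] at h0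
      rw [hY]
      refine Finset.sum_eq_zero fun e he => ?_
      rw [h0 e (Finset.mem_sdiff.mp he).1]
      ring)
  obtain ⟨T, hT⟩ : ∃ T : ℝ, T = ∑ S ∈ Finset.powersetCard j A, ∑ n ∈ JJ x H, om S n * |Y S n| :=
    ⟨_, rfl⟩
  rw [← hT] at hcs
  have hq : (EP (w : ℝ) z)⁻¹ * wp w ≤ Real.log x / c := by
    rw [wp_eq, ← mul_inv, mul_comm (EP (w : ℝ) z), ← EP_mul (Nat.cast_nonneg w) hwz]
    have h1 := hmer z hz2
    have h2 : 0 < Real.log z := Real.log_pos (by linarith)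
    have h3 : (EP 0 z)⁻¹ ≤ (c / Real.log z)⁻¹ := inv_anti₀ (by positivity) h1
    rw [inv_div] at h3
    exact h3.trans (div_le_div_of_nonneg_right hlogz hc.le)
  have hQ20 : 0 ≤ ∑ S ∈ Finset.powersetCard j A, ∑ n ∈ JJ x H, om S n * Y S n ^ 2 /
      (∑ e ∈ A, Mm w ((n : ℤ) - e)) := by
    refine Finset.sum_nonneg fun S _ => Finset.sum_nonneg fun n _ => ?_
    exact div_nonneg (mul_nonneg (hom0 S n) (sq_nonneg _))
      (Finset.sum_nonneg fun _ _ => Mm_nonneg _ _)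
  have hfin := OS_num (T := T) (j := j) (b := b) hN0.le hWr (BB_nonneg w A (j + 1))
    (BB_nonneg w A j) (show (0 : ℝ) < (A.card : ℝ) by exact_mod_cast hAne.card_pos) hC hc
    (by linarith) ha hb' hg' hq (MOM_cheb w A j) (by rw [hom]; exact Q1)
    (by rw [hom, hY]; exact Q2) hQ20 hcs
  have hlhs : |∑ S ∈ Finset.powersetCard j A, ∑ n ∈ JJ x H, G S (n : ℤ) *
        ∑ e ∈ A \ S, σ S e * (Mm w ((n : ℤ) - e) * (V ((n : ℤ) - e) * β ((n : ℤ) - e) - 1))|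
      ≤ A₀ * T := by
    rw [hT, Finset.mul_sum]
    refine (Finset.abs_sum_le_sum_abs _ _).trans (Finset.sum_le_sum fun S hS' => ?_)
    rw [Finset.mul_sum]
    refine (Finset.abs_sum_le_sum_abs _ _).trans (Finset.sum_le_sum fun n _ => ?_)
    have e1 : ∑ e ∈ A \ S, σ S e * (Mm w ((n : ℤ) - e) * (V ((n : ℤ) - e) * β ((n : ℤ) - e) - 1))
        = Y S n := by rw [hY, hu]
    rw [e1, abs_mul, ← mul_assoc]
    refine mul_le_mul_of_nonneg_right ?_ (abs_nonneg _)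
    refine (hG S hS' (n : ℤ)).trans (le_of_eq ?_)
    rw [hom, hP]
    simp only
    rw [Finset.prod_mul_distrib]
  refine hlhs.trans ?_
  refine (mul_le_mul_of_nonneg_left hfin hA₀).trans (le_of_eq ?_)
  ring

end Pool.Agent.H96.AS
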