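import Pool.Agent.H96.AS.TSa
import Pool.Agent.H96.AS.BT
import Pool.Agent.H96.AS.OS
import Pool.Agent.H96.AS.CH
import Pool.Agent.H6.AE.Num

/-!
# TS: the upper bound for almost all `k`-subsets of a set of shifts

`k = j + 1`, `L = log x`, `N = ⌊x⌋₊ + 1`, `w = yy x`.
* `TS`: 1. Choose `η ∈ (0, 1/20]` and `ε' > 0` with `q = 1/(1/4 - η)`: `q^j (1 + ε') ≤ 4^j + ε/2` (continuity). 2. `m` with `j + 2 ≤ m`, `j + 4 ≤ 10 (m+1) η`. 3. `b₁` from `Num m`; `b ≥ b₁` by `TS_choose` with `D = j q^j 2^(j+4) * 2 (j+1)!` (`+ 1`) and `ε/2`. 4. `δ = dlm m b ≤ 1/320 < θ = 1/4 - η ≤ 1/4`;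
  `C` from `BT δ θ`, `C₁` from `OS m b j η C`; `K ≥ 1` with `C₁/K ≤ (1/2)^b` and `K ≥ 2 (j+1)^2`. Given `x` large, `H`, `A`, `s`: `V` from `Num`, `β` from `BT`; `f = La x`, `M = Mm w`, `ν n = Mm w n * (V n * β n)`. `f ≤ q ν` (`MJ`), `M + f ≤ (1 + 1/δ) Mm w (1 + V)` (`BMU_maj`: `La ≤ (1/δ) Mm V`).
  `ER JJ A f M ν s j i ≤ E` for all `i` by `OS` with `G = GG f M i`, `A₀ = (1 + 1/δ)^j` (`CH_G`, `Finset.prod_le_prod`, `Finset.prod_const`), `σ S e = s (insert e S)`, `ν - M = Mm w (V β - 1)`: `E = A₀ 2^(j+4) √((1/2)^b + C₁ L/|A|) N BB w A (j+1)`, and `|A| ≥ K L`: `√(...) ≤ √(2 (1/2)^b)`;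
  `BB w A (j+1) ≤ 2 (j+1)! ∑_C sW x C` (`MOM_up2`; `wp w ≤ WW w ≤ L`, so `2 (j+1)^2 wp w ≤ K L`; `sW x C` is the average in `MOM` by definition). `CH_iter`, `CH_last`, `TS_last` (with `ε'`): `∑_C s C ∑_n ∏ La ≤ q^j (1+ε') N ∑ s sW + j q^j E ≤ (4^j + ε/2) N ∑ s sW + (ε/2) N ∑ sW`.
* `TS_size`: `∑_{C ∈ P_k(A)} sW x C ≥ 1`: `MOM_up2`, `MOM_cheb` and `MOM_one`: `BB w A k ≥ |A|^k`, so the sum is `≥ |A|^k/(2 k!) ≥ 1` for large `x` (`|A| ≥ L`, `L^k ≥ 2 k!`; `2 k^2 wp w ≤ |A|` because `wp w ≤ W`, `W^68 ≤ L`, i.e. `W ≤ L/(2k^2)` for large `x`).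
* `TSu`: `s C = 1` if `L^k cnt x C/x > 4^j sing C`, `0` otherwise. `x ∑ max 0 (...) = ∑ s (L^k cnt - 4^j x sing) ≤ ∑ s ∑_n ∏ La + |P_k(A)| x^(1/2) - 4^j x ∑ s sing` (`TS_cnt`); `TS` with `ε₁`, `PW_sing` with `ε₁` (`sW ≤ sing/(1-ε₁)`), `N ≤ x + 1`, `|P_k(A)| ≤ L^(2k)`, `L^(2k) x^(1/2) ≤ ε₁ x ≤ ε₁ x ∑ sW`
  (`TS_size`). Total `≤ x ε ∑ sing` for suitable `ε₁`.
-/

set_option autoImplicit false

namespace Pool.Agent.H96.AS

open Finset Pool.Agent.H17 Pool.Agent.H6.MF Pool.Agent.H6.MB Pool.Agent.H12.DM Pool.Agent.H6.AE Pool.Agent.H96.AE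

private theorem TS_par (j : ℕ) (ε : ℝ) (hε : 0 < ε) : ∃ t : ℝ, 0 < t ∧ t ≤ 1 / 20 ∧
    (1 / (1 / 4 - t)) ^ j * (1 + t) ≤ 4 ^ j + ε / 2 := by
  have h1 : Filter.Tendsto (fun t : ℝ => (1 / (1 / 4 - t)) ^ j * (1 + t)) (nhds 0)
      (nhds ((1 / (1 / 4 - 0)) ^ j * (1 + 0))) := by
    apply Filter.Tendsto.mul
    · apply Filter.Tendsto.pow
      apply Filter.Tendsto.div tendsto_const_nhds
      · exact Filter.Tendsto.sub tendsto_const_nhds Filter.tendsto_id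
      · norm_num
    · exact Filter.Tendsto.add tendsto_const_nhds Filter.tendsto_id
  have h2 : (1 / (1 / 4 - 0) : ℝ) ^ j * (1 + 0) = 4 ^ j := by norm_num
  rw [h2] at h1
  have h3 := h1.eventually (ge_mem_nhds (show (4 : ℝ) ^ j < 4 ^ j + ε / 2 by linarith))
  obtain ⟨d, hd0, hd⟩ := Metric.eventually_nhds_iff.1 h3
  refine ⟨min (d / 2) (1 / 20), by positivity, min_le_right _ _, ?_⟩
  apply hd
  rw [Real.dist_eq, sub_zero, abs_of_pos (by positivity)]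
  exact (min_le_left _ _).trans_lt (by linarith)

private theorem TS_wp (c : ℝ) (hc : 0 < c) (k : ℕ) : ∃ X : ℝ, ∀ x : ℝ, X ≤ x → 1 ≤ x ∧ 1 ≤ Real.log x ∧
    c * wp (yy x) ≤ Real.log x ∧ c ≤ Real.log x ^ (k + 1) := by
  have e2 : ∀ᶠ x : ℝ in Filter.atTop, max 1 (c ^ 2 + c) ≤ Real.log x :=
    Real.tendsto_log_atTop.eventually_ge_atTop _
  obtain ⟨X, hX⟩ := Filter.eventually_atTop.1 (e2.and (Filter.eventually_ge_atTop (1 : ℝ)))
  refine ⟨X, fun x hx => ?_⟩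
  obtain ⟨hL, hx1⟩ := hX x hx
  have hL1 : 1 ≤ Real.log x := (le_max_left _ _).trans hL
  have hLc : c ^ 2 + c ≤ Real.log x := (le_max_right _ _).trans hL
  have hL0 : 0 < Real.log x := by linarith
  have hW1 : (1 : ℝ) ≤ (WW (yy x) : ℝ) := by exact_mod_cast WW_pos (yy x)
  have hWL : (WW (yy x) : ℝ) ≤ Real.sqrt (Real.log x) :=
    (le_self_pow₀ hW1 (by norm_num)).trans (WW_yy_pow_le hL1)
  have hw : wp (yy x) ≤ Real.sqrt (Real.log x) := (Bb_wp_le _).trans hWL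
  have hcs : c ≤ Real.sqrt (Real.log x) := by
    apply Real.le_sqrt_of_sq_le
    linarith
  refine ⟨hx1, hL1, ?_, ?_⟩
  · calc c * wp (yy x) ≤ Real.sqrt (Real.log x) * Real.sqrt (Real.log x) :=
          mul_le_mul hcs hw (wp_pos _).le (Real.sqrt_nonneg _)
      _ = Real.log x := Real.mul_self_sqrt hL0.le
  · have h1 : Real.log x ≤ Real.log x ^ (k + 1) := le_self_pow₀ hL1 (by omega)
    nlinarith

private theorem TS_BB (w : ℕ) (A : Finset ℤ) (k : ℕ) : (A.card : ℝ) ^ (k + 1) ≤ BB w A (k + 1) := by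
  induction k with
  | zero => rw [zero_add, pow_one, MOM_one]
  | succ k ih =>
    rw [pow_succ]
    exact (mul_le_mul_of_nonneg_right ih (Nat.cast_nonneg _)).trans (MOM_cheb w A (k + 1))

theorem TS_size (k : ℕ) : ∃ X : ℝ, ∀ x : ℝ, X ≤ x → ∀ A : Finset ℤ, Real.log x ≤ (A.card : ℝ) →
    1 ≤ ∑ C ∈ Finset.powersetCard (k + 1) A, sW x C := by
  obtain ⟨X, hX⟩ := TS_wp (max (2 * ((k : ℝ) + 1) ^ 2) (2 * ((k + 1).factorial : ℝ))) (by positivity) k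
  refine ⟨X, fun x hx A hA => ?_⟩
  obtain ⟨hx1, hL1, hw, hf⟩ := hX x hx
  have h1 : 2 * ((k : ℝ) + 1) ^ 2 * wp (yy x) ≤ (A.card : ℝ) :=
    ((mul_le_mul_of_nonneg_right (le_max_left _ _) (wp_pos _).le).trans hw).trans hA
  have h2 := MOM_up2 (yy x) A k h1
  have h3 := TS_BB (yy x) A k
  have h4 : Real.log x ^ (k + 1) ≤ (A.card : ℝ) ^ (k + 1) := pow_le_pow_left₀ (by linarith) hA _
  have h5 : 2 * ((k + 1).factorial : ℝ) ≤ Real.log x ^ (k + 1) := (le_max_right _ _).trans hf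
  have h6 : 2 * ((k + 1).factorial : ℝ) * 1 ≤ 2 * ((k + 1).factorial : ℝ) *
      ∑ C ∈ Finset.powersetCard (k + 1) A, sW x C := by
    have e : (∑ C ∈ Finset.powersetCard (k + 1) A, sW x C) =
        ∑ C ∈ Finset.powersetCard (k + 1) A, avgP (WW (yy x)) (fun t => ∏ h ∈ C, Mm (yy x) (t - h)) := rfl
    rw [e]
    linarith
  exact le_of_mul_le_mul_left h6 (by positivity)

theorem TS (j : ℕ) (hj : 1 ≤ j) (ε : ℝ) (hε : 0 < ε) : ∃ K X : ℝ, 1 ≤ K ∧ ∀ x : ℝ, X ≤ x → ∀ H : ℕ,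
    (H : ℝ) ≤ (Real.log x) ^ 2 → ∀ A : Finset ℤ, A ⊆ Finset.Icc 1 (H : ℤ) → K * Real.log x ≤ (A.card : ℝ) →
    ∀ s : Finset ℤ → ℝ, (∀ C, 0 ≤ s C ∧ s C ≤ 1) →
    ∑ C ∈ Finset.powersetCard (j + 1) A, s C * ∑ n ∈ JJ x H, ∏ c ∈ C, La x ((n : ℤ) - c) ≤
      ((⌊x⌋₊ : ℝ) + 1) * (4 ^ j * ∑ C ∈ Finset.powersetCard (j + 1) A, s C * sW x C
        + ε * ∑ C ∈ Finset.powersetCard (j + 1) A, sW x C) := by
  obtain ⟨η, hη0, hη1, hηj⟩ := TS_par j ε hε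
  set q : ℝ := 1 / (1 / 4 - η) with hq
  have hθ0 : 0 < 1 / 4 - η := by linarith
  have hq1 : 1 ≤ q := by
    rw [hq, le_div_iff₀ hθ0]
    linarith
  have hq0 : 0 < q := by linarith
  obtain ⟨m, hm1, hm2⟩ : ∃ m : ℕ, j + 2 ≤ m ∧ (j : ℝ) + 4 ≤ 10 * ((m : ℝ) + 1) * η := by
    refine ⟨max (j + 2) ⌈((j : ℝ) + 4) / (10 * η)⌉₊, le_max_left _ _, ?_⟩
    have h1 : ((j : ℝ) + 4) / (10 * η) ≤ ((max (j + 2) ⌈((j : ℝ) + 4) / (10 * η)⌉₊ : ℕ) : ℝ) :=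
      (Nat.le_ceil _).trans (by exact_mod_cast le_max_right _ _)
    rw [div_le_iff₀ (by positivity)] at h1
    nlinarith
  obtain ⟨b₁, hNum⟩ := Num m
  set D : ℝ := (j : ℝ) * q ^ j * 2 ^ (j + 4) * (2 * ((j + 1).factorial : ℝ)) + 1 with hD
  have hD0 : 0 < D := by positivity
  obtain ⟨b, hb, hbD⟩ := TS_choose m j D (ε / 2) hD0 (by linarith) b₁
  obtain ⟨X₁, hV⟩ := hNum b hb
  set δ : ℝ := dlm m b with hδdef
  have hδ0 : 0 < δ := dlm_pos m b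
  have hδ1 : δ ≤ 1 / 320 := dlm_le m b
  have hδθ : δ < 1 / 4 - η := by linarith
  obtain ⟨C, X₂, hC0, hBT⟩ := BT δ (1 / 4 - η) hδ0 hδθ (by linarith)
  obtain ⟨C₁, X₃, hC1, hOS⟩ := OS m b j η C hη0 hη1 hm1 hm2 hC0
  obtain ⟨X₄, hMJ⟩ := MJ m b (1 / 4 - η) C hδθ (by linarith)
  obtain ⟨X₅, hBM⟩ := BMU_maj m b
  obtain ⟨X₆, hlast⟩ := TS_last (j + 1) η hη0
  obtain ⟨X₇, hwp⟩ := TS_wp 1 one_pos 0
  set K : ℝ := max 1 (max (C₁ * 2 ^ b) (2 * ((j : ℝ) + 1) ^ 2)) with hK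
  have hK1 : 1 ≤ K := le_max_left _ _
  have hKC : C₁ * 2 ^ b ≤ K := (le_max_left _ _).trans (le_max_right _ _)
  have hKj : 2 * ((j : ℝ) + 1) ^ 2 ≤ K := (le_max_right _ _).trans (le_max_right _ _)
  refine ⟨K, max X₁ (max X₂ (max X₃ (max X₄ (max X₅ (max X₆ X₇))))), hK1, fun x hx H hH A hA hcard s hs => ?_⟩
  simp only [max_le_iff] at hx
  obtain ⟨hx1, hx2, hx3, hx4, hx5, hx6, hx7⟩ := hx
  obtain ⟨hxx, hL1, hwpL, -⟩ := hwp x hx7
  rw [one_mul] at hwpL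
  obtain ⟨V, hVg⟩ := hV x hx1
  obtain ⟨β, hβ⟩ := hBT x hx2
  have hN0 : (0 : ℝ) ≤ (⌊x⌋₊ : ℝ) + 1 := by positivity
  have hL0 : 0 < Real.log x := by linarith
  have hAc : 0 < (A.card : ℝ) := by
    have : 0 < K * Real.log x := by positivity
    linarith
  have hAne : A.Nonempty := by
    rw [← Finset.card_pos]
    exact_mod_cast hAc
  -- the error terms
  set S₁ : ℝ := ∑ C ∈ Finset.powersetCard (j + 1) A, sW x C with hS1
  have hS10 : 0 ≤ S₁ := Finset.sum_nonneg fun C _ => sW_nonneg x C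
  have hBB : BB (yy x) A (j + 1) ≤ 2 * (((j + 1).factorial : ℝ) * S₁) := by
    have h1 : 2 * ((j : ℝ) + 1) ^ 2 * wp (yy x) ≤ (A.card : ℝ) :=
      (mul_le_mul hKj hwpL (wp_pos _).le (by linarith)).trans hcard
    exact MOM_up2 (yy x) A j h1
  have hsq : Real.sqrt ((1 / 2 : ℝ) ^ b + C₁ * Real.log x / (A.card : ℝ)) ≤ Real.sqrt (2 * (1 / 2 : ℝ) ^ b) := by
    apply Real.sqrt_le_sqrt
    have h1 : C₁ * Real.log x / (A.card : ℝ) ≤ (1 / 2 : ℝ) ^ b := by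
      rw [div_le_iff₀ hAc]
      have h2 : C₁ * 2 ^ b * Real.log x ≤ (A.card : ℝ) := (mul_le_mul_of_nonneg_right hKC hL0.le).trans hcard
      have h3 : C₁ * Real.log x = (1 / 2 : ℝ) ^ b * (C₁ * 2 ^ b * Real.log x) := by
        have h4 : (1 / 2 : ℝ) ^ b * 2 ^ b = 1 := by
          rw [← mul_pow]
          norm_num
        calc C₁ * Real.log x = ((1 / 2 : ℝ) ^ b * 2 ^ b) * (C₁ * Real.log x) := by rw [h4, one_mul]
          _ = _ := by ring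
      rw [h3]
      exact mul_le_mul_of_nonneg_left h2 (by positivity)
    linarith
  set A₀ : ℝ := (1 + 1 / δ) ^ j with hA0
  have hA00 : 0 ≤ A₀ := by positivity
  set E : ℝ := A₀ * 2 ^ (j + 4) * Real.sqrt (2 * (1 / 2 : ℝ) ^ b) * ((⌊x⌋₊ : ℝ) + 1) *
    (2 * (((j + 1).factorial : ℝ) * S₁)) with hE
  have hE0 : 0 ≤ E := by positivity
  have hER : ∀ i < j, ER (JJ x H) A (La x) (Mm (yy x)) (fun n => Mm (yy x) n * (V n * β n)) s j i ≤ E := by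
    intro i _
    have h1 := hOS x hx3 V hVg β hβ H hH A hA hAne A₀ hA00 (GG (La x) (Mm (yy x)) i) ?_
      (fun S e => s (insert e S)) (fun S e => hs _)
    · have h2 : ER (JJ x H) A (La x) (Mm (yy x)) (fun n => Mm (yy x) n * (V n * β n)) s j i =
          ∑ S ∈ Finset.powersetCard j A, ∑ n ∈ JJ x H, GG (La x) (Mm (yy x)) i S (n : ℤ) *
            ∑ e ∈ A \ S, s (insert e S) * (Mm (yy x) ((n : ℤ) - e) * (V ((n : ℤ) - e) * β ((n : ℤ) - e) - 1)) := by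
        unfold ER
        refine Finset.sum_congr rfl fun S _ => Finset.sum_congr rfl fun n _ => ?_
        congr 1
        refine Finset.sum_congr rfl fun e _ => ?_
        ring
      rw [h2]
      refine (le_abs_self _).trans (h1.trans ?_)
      rw [hE]
      have hn1 : 0 ≤ A₀ * 2 ^ (j + 4) := by positivity
      exact mul_le_mul (mul_le_mul_of_nonneg_right (mul_le_mul_of_nonneg_left hsq hn1) hN0) hBB
        (BB_nonneg _ _ _) (by positivity)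
    · intro S hS n
      refine (CH_G (La x) (Mm (yy x)) (La_nonneg hxx) (Mm_nonneg _) i S n).trans ?_
      have hcS : S.card = j := (Finset.mem_powersetCard.1 hS).2
      calc ∏ c ∈ S, (Mm (yy x) (n - c) + La x (n - c))
          ≤ ∏ c ∈ S, ((1 + 1 / δ) * (Mm (yy x) (n - c) * (1 + V (n - c)))) := by
            refine Finset.prod_le_prod (fun c _ => add_nonneg (Mm_nonneg _ _) (La_nonneg hxx _)) fun c _ => ?_
            have h3 := hBM x hx5 V hVg (n - c)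
            have h4 := Mm_nonneg (yy x) (n - c)
            have h5 := hVg.1 (n - c)
            have h6 : 0 ≤ 1 / δ := by positivity
            have h7 := mul_nonneg h4 h5
            have h8 := mul_nonneg h6 h4
            nlinarith
        _ = A₀ * ∏ c ∈ S, (Mm (yy x) (n - c) * (1 + V (n - c))) := by
            rw [Finset.prod_mul_distrib, Finset.prod_const, hcS]
  have hit := CH_iter (JJ x H) A (La x) (Mm (yy x)) (fun n => Mm (yy x) n * (V n * β n)) (La_nonneg hxx)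
    (Mm_nonneg _) q hq1 (fun n => hMJ x hx4 V hVg β hβ n) s (fun C => (hs C).1) j E hE0 hER
  -- the main term
  have hZ : ZZ (JJ x H) A (La x) (Mm (yy x)) s (j + 1) j / ((j : ℝ) + 1) ≤
      (1 + η) * ((⌊x⌋₊ : ℝ) + 1) * ∑ C ∈ Finset.powersetCard (j + 1) A, s C * sW x C := by
    rw [div_le_iff₀ (by positivity), CH_last, Finset.mul_sum, Finset.sum_mul]
    refine Finset.sum_le_sum fun C hC => ?_
    obtain ⟨hCA, hCc⟩ := Finset.mem_powersetCard.1 hC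
    have h1 : ∑ e ∈ C, ∑ n ∈ JJ x H, (∏ c ∈ C.erase e, Mm (yy x) ((n : ℤ) - c)) * La x ((n : ℤ) - e) ≤
        ∑ _e ∈ C, (1 + η) * ((⌊x⌋₊ : ℝ) + 1) * sW x C :=
      Finset.sum_le_sum fun e he => hlast x hx6 H hH C (hCA.trans hA) hCc.le e he
    rw [Finset.sum_const, hCc, nsmul_eq_mul] at h1
    have h2 := mul_le_mul_of_nonneg_left h1 (hs C).1
    refine h2.trans (le_of_eq ?_)
    push_cast
    ring
  have hSs : ∑ C ∈ Finset.powersetCard (j + 1) A, s C * sW x C ≤ S₁ :=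
    Finset.sum_le_sum fun C _ => mul_le_of_le_one_left (sW_nonneg x C) (hs C).2
  have hSs0 : 0 ≤ ∑ C ∈ Finset.powersetCard (j + 1) A, s C * sW x C :=
    Finset.sum_nonneg fun C _ => mul_nonneg (hs C).1 (sW_nonneg x C)
  set S₂ : ℝ := ∑ C ∈ Finset.powersetCard (j + 1) A, s C * sW x C with hS2
  refine hit.trans ?_
  have p1 : q ^ j * (ZZ (JJ x H) A (La x) (Mm (yy x)) s (j + 1) j / ((j : ℝ) + 1)) ≤
      ((⌊x⌋₊ : ℝ) + 1) * ((4 ^ j + ε / 2) * S₂) := by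
    calc q ^ j * (ZZ (JJ x H) A (La x) (Mm (yy x)) s (j + 1) j / ((j : ℝ) + 1))
        ≤ q ^ j * ((1 + η) * ((⌊x⌋₊ : ℝ) + 1) * S₂) := mul_le_mul_of_nonneg_left hZ (by positivity)
      _ = (q ^ j * (1 + η)) * (((⌊x⌋₊ : ℝ) + 1) * S₂) := by ring
      _ ≤ (4 ^ j + ε / 2) * (((⌊x⌋₊ : ℝ) + 1) * S₂) := mul_le_mul_of_nonneg_right hηj (mul_nonneg hN0 hSs0)
      _ = _ := by ring
  have p2 : (j : ℝ) * q ^ j * E ≤ ((⌊x⌋₊ : ℝ) + 1) * (ε / 2 * S₁) := by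
    have h1 : (j : ℝ) * q ^ j * E = ((j : ℝ) * q ^ j * 2 ^ (j + 4) * (2 * ((j + 1).factorial : ℝ))) *
        (A₀ * Real.sqrt (2 * (1 / 2 : ℝ) ^ b)) * (((⌊x⌋₊ : ℝ) + 1) * S₁) := by
      rw [hE]
      ring
    rw [h1]
    have h2 : ((j : ℝ) * q ^ j * 2 ^ (j + 4) * (2 * ((j + 1).factorial : ℝ))) *
        (A₀ * Real.sqrt (2 * (1 / 2 : ℝ) ^ b)) ≤ ε / 2 := by
      refine le_trans ?_ hbD
      have h3 : (j : ℝ) * q ^ j * 2 ^ (j + 4) * (2 * ((j + 1).factorial : ℝ)) ≤ D := by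
        rw [hD]
        linarith
      calc _ ≤ D * (A₀ * Real.sqrt (2 * (1 / 2 : ℝ) ^ b)) := mul_le_mul_of_nonneg_right h3 (by positivity)
        _ = _ := by rw [hA0]; ring
    calc _ ≤ ε / 2 * (((⌊x⌋₊ : ℝ) + 1) * S₁) := mul_le_mul_of_nonneg_right h2 (mul_nonneg hN0 hS10)
      _ = _ := by ring
  have p3 : ((⌊x⌋₊ : ℝ) + 1) * ((4 ^ j + ε / 2) * S₂) + ((⌊x⌋₊ : ℝ) + 1) * (ε / 2 * S₁) ≤
      ((⌊x⌋₊ : ℝ) + 1) * (4 ^ j * S₂ + ε * S₁) := by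
    rw [← mul_add]
    apply mul_le_mul_of_nonneg_left _ hN0
    nlinarith
  linarith

private theorem TSu_ev (k : ℕ) (ε : ℝ) (hε : 0 < ε) : ∃ X : ℝ, ∀ x : ℝ, X ≤ x → 1 ≤ x ∧ 1 ≤ Real.log x ∧
    Real.log x ^ k * x ^ (1 / 2 : ℝ) ≤ ε * x ∧ 1 ≤ ε * x := by
  have e3 := (isLittleO_log_rpow_rpow_atTop (k : ℝ) (show (0 : ℝ) < 1 / 2 by norm_num)).bound hε
  have e2 : ∀ᶠ x : ℝ in Filter.atTop, 1 ≤ Real.log x :=
    Real.tendsto_log_atTop.eventually_ge_atTop 1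
  obtain ⟨X, hX⟩ := Filter.eventually_atTop.1 (e2.and (e3.and ((Filter.eventually_ge_atTop (1 : ℝ)).and
    (Filter.eventually_ge_atTop (1 / ε)))))
  refine ⟨X, fun x hx => ?_⟩
  obtain ⟨hL, h3, hx1, hx2⟩ := hX x hx
  have hx0 : 0 < x := by linarith
  rw [Real.rpow_natCast, Real.norm_of_nonneg (by positivity), Real.norm_of_nonneg (by positivity)] at h3
  refine ⟨hx1, hL, ?_, ?_⟩
  · have h4 : x ^ (1 / 2 : ℝ) * x ^ (1 / 2 : ℝ) = x := by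
      rw [← Real.rpow_add hx0]
      norm_num
    calc Real.log x ^ k * x ^ (1 / 2 : ℝ) ≤ (ε * x ^ (1 / 2 : ℝ)) * x ^ (1 / 2 : ℝ) :=
          mul_le_mul_of_nonneg_right h3 (by positivity)
      _ = ε * x := by rw [mul_assoc, h4]
  · rw [div_le_iff₀ hε] at hx2
    linarith

theorem TSu (j : ℕ) (hj : 1 ≤ j) (ε : ℝ) (hε : 0 < ε) : ∃ K X : ℝ, 1 ≤ K ∧ ∀ x : ℝ, X ≤ x → ∀ H : ℕ,
    (H : ℝ) ≤ (Real.log x) ^ 2 → ∀ A : Finset ℤ, A ⊆ Finset.Icc 1 (H : ℤ) → K * Real.log x ≤ (A.card : ℝ) →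
    ∑ C ∈ Finset.powersetCard (j + 1) A, max 0 ((Real.log x) ^ (j + 1) * (cnt x C : ℝ) / x - 4 ^ j * sing C) ≤
      ε * ∑ C ∈ Finset.powersetCard (j + 1) A, sing C := by
  obtain ⟨e, he0, he1, he2⟩ : ∃ e : ℝ, 0 < e ∧ e ≤ 1 / 2 ∧ (4 * 4 ^ j + 5) * e ≤ ε := by
    refine ⟨min (1 / 2) (ε / (4 * 4 ^ j + 5)), by positivity, min_le_left _ _, ?_⟩
    calc (4 * 4 ^ j + 5) * min (1 / 2) (ε / (4 * 4 ^ j + 5)) ≤ (4 * 4 ^ j + 5) * (ε / (4 * 4 ^ j + 5)) :=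
          mul_le_mul_of_nonneg_left (min_le_right _ _) (by positivity)
      _ = ε := by field_simp
  obtain ⟨K, X₁, hK, hTS⟩ := TS j hj e he0
  obtain ⟨X₂, hsz⟩ := TS_size j
  obtain ⟨X₃, hcn⟩ := TS_cnt (j + 1)
  obtain ⟨X₄, hPW⟩ := PW_sing (j + 1) e he0
  obtain ⟨X₅, hev⟩ := TSu_ev (2 * (j + 1)) e he0
  refine ⟨K, max X₁ (max X₂ (max X₃ (max X₄ X₅))), hK, fun x hx H hH A hA hcard => ?_⟩
  simp only [max_le_iff] at hx
  obtain ⟨hx1, hx2, hx3, hx4, hx5⟩ := hx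
  obtain ⟨hxx, hL1, hpw, hex⟩ := hev x hx5
  have hx0 : 0 < x := by linarith
  have hL0 : 0 < Real.log x := by linarith
  have hcard1 : Real.log x ≤ (A.card : ℝ) := by nlinarith
  set P := Finset.powersetCard (j + 1) A with hP
  have hsz1 : 1 ≤ ∑ C ∈ P, sW x C := hsz x hx2 A hcard1
  have hN : (⌊x⌋₊ : ℝ) + 1 ≤ (1 + e) * x := by
    have := Nat.floor_le hx0.le
    nlinarith
  have hAH : (A.card : ℝ) ≤ (Real.log x) ^ 2 := by
    have h1 : A.card ≤ H := by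
      have := Finset.card_le_card hA
      simpa using this
    have h2 : (A.card : ℝ) ≤ (H : ℝ) := by exact_mod_cast h1
    linarith
  have hPc : (P.card : ℝ) ≤ (Real.log x) ^ (2 * (j + 1)) := by
    rw [hP, Finset.card_powersetCard]
    have h1 : ((A.card.choose (j + 1) : ℕ) : ℝ) ≤ (A.card : ℝ) ^ (j + 1) := by
      have h2 : A.card.choose (j + 1) ≤ A.card ^ (j + 1) := Nat.choose_le_pow _ _
      exact_mod_cast h2
    refine h1.trans ?_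
    rw [pow_mul]
    exact pow_le_pow_left₀ (Nat.cast_nonneg _) hAH _
  have hfac : ∀ C ∈ P, C ⊆ Finset.Icc 1 (H : ℤ) ∧ C.card = j + 1 := fun C hC =>
    ⟨(Finset.mem_powersetCard.1 hC).1.trans hA, (Finset.mem_powersetCard.1 hC).2⟩
  have hsW : ∀ C ∈ P, sW x C ≤ (1 + 2 * e) * sing C := by
    intro C hC
    obtain ⟨hCI, hCc⟩ := hfac C hC
    have h1 := (hPW x hx4 C (by omega) hCc.le (fun a ha a' ha' => ?_)).1
    · have h2 := sW_nonneg x C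
      have h3 : sW x C * (1 - (1 + 2 * e) * (1 - e)) ≤ 0 := by
        have h5 : 1 - (1 + 2 * e) * (1 - e) ≤ 0 := by nlinarith
        exact mul_nonpos_of_nonneg_of_nonpos h2 h5
      have h6 : (1 + 2 * e) * ((1 - e) * sW x C) ≤ (1 + 2 * e) * sing C :=
        mul_le_mul_of_nonneg_left h1 (by linarith)
      nlinarith
    · have ha1 := Finset.mem_Icc.1 (hCI ha)
      have ha2 := Finset.mem_Icc.1 (hCI ha')
      have h3 : |a - a'| ≤ (H : ℤ) := by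
        rw [abs_le]
        omega
      have h4 : |((a - a' : ℤ) : ℝ)| ≤ (H : ℝ) := by
        rw [← Int.cast_abs]
        exact_mod_cast h3
      nlinarith [sq_nonneg (Real.log x)]
  set s : Finset ℤ → ℝ := fun C => if 4 ^ j * sing C < (Real.log x) ^ (j + 1) * (cnt x C : ℝ) / x then 1 else 0 with hs
  have hs01 : ∀ C, 0 ≤ s C ∧ s C ≤ 1 := by
    intro C
    rw [hs]
    beta_reduce
    split_ifs <;> norm_num
  have hmax : ∀ C ∈ P, max 0 ((Real.log x) ^ (j + 1) * (cnt x C : ℝ) / x - 4 ^ j * sing C) =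
      s C * ((Real.log x) ^ (j + 1) * (cnt x C : ℝ) / x - 4 ^ j * sing C) := by
    intro C _
    rw [hs]
    beta_reduce
    split_ifs with h
    · rw [one_mul, max_eq_right (by linarith)]
    · rw [zero_mul, max_eq_left (by linarith)]
  rw [Finset.sum_congr rfl hmax]
  have hT := hTS x hx1 H hH A hA hcard s hs01
  have hsing0 : ∀ C, 0 ≤ sing C := fun C => sing_nonneg C
  set T₁ : ℝ := ∑ C ∈ P, sing C with hT1
  set T₂ : ℝ := ∑ C ∈ P, s C * sing C with hT2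
  set W₁ : ℝ := ∑ C ∈ P, sW x C with hW1
  set W₂ : ℝ := ∑ C ∈ P, s C * sW x C with hW2
  have hT10 : 0 ≤ T₁ := Finset.sum_nonneg fun C _ => hsing0 C
  have hT20 : 0 ≤ T₂ := Finset.sum_nonneg fun C _ => mul_nonneg (hs01 C).1 (hsing0 C)
  have hW10 : 0 ≤ W₁ := Finset.sum_nonneg fun C _ => sW_nonneg x C
  have hW20 : 0 ≤ W₂ := Finset.sum_nonneg fun C _ => mul_nonneg (hs01 C).1 (sW_nonneg x C)
  have hT21 : T₂ ≤ T₁ := Finset.sum_le_sum fun C _ => mul_le_of_le_one_left (hsing0 C) (hs01 C).2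
  have hWT1 : W₁ ≤ (1 + 2 * e) * T₁ := by
    rw [hT1, Finset.mul_sum]
    exact Finset.sum_le_sum hsW
  have hWT2 : W₂ ≤ (1 + 2 * e) * T₂ := by
    rw [hT2, Finset.mul_sum]
    refine Finset.sum_le_sum fun C hC => ?_
    have := mul_le_mul_of_nonneg_left (hsW C hC) (hs01 C).1
    linarith
  have hcnt : ∑ C ∈ P, s C * ((Real.log x) ^ (j + 1) * (cnt x C : ℝ)) ≤
      (∑ C ∈ P, s C * ∑ n ∈ JJ x H, ∏ c ∈ C, La x ((n : ℤ) - c)) + (P.card : ℝ) * x ^ (1 / 2 : ℝ) := by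
    have h1 : ∀ C ∈ P, s C * ((Real.log x) ^ (j + 1) * (cnt x C : ℝ)) ≤
        s C * (∑ n ∈ JJ x H, ∏ c ∈ C, La x ((n : ℤ) - c)) + x ^ (1 / 2 : ℝ) := by
      intro C hC
      obtain ⟨hCI, hCc⟩ := hfac C hC
      have h2 := (abs_le.1 (hcn x hx3 H hH C hCI (by omega) hCc.le)).2
      rw [hCc] at h2
      have h3 : 0 ≤ x ^ (1 / 2 : ℝ) := by positivity
      have h4 := mul_le_mul_of_nonneg_left h2 (hs01 C).1
      have h5 := mul_le_of_le_one_left h3 (hs01 C).2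
      linarith
    refine (Finset.sum_le_sum h1).trans (le_of_eq ?_)
    rw [Finset.sum_add_distrib, Finset.sum_const, nsmul_eq_mul]
  have hLHS : ∑ C ∈ P, s C * ((Real.log x) ^ (j + 1) * (cnt x C : ℝ) / x - 4 ^ j * sing C) =
      (∑ C ∈ P, s C * ((Real.log x) ^ (j + 1) * (cnt x C : ℝ))) / x - 4 ^ j * T₂ := by
    rw [hT2, Finset.sum_div, Finset.mul_sum, ← Finset.sum_sub_distrib]
    refine Finset.sum_congr rfl fun C _ => ?_
    ring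
  rw [hLHS, sub_le_iff_le_add, div_le_iff₀ hx0]
  have q1 : (P.card : ℝ) * x ^ (1 / 2 : ℝ) ≤ e * x * W₁ := by
    have h1 : (P.card : ℝ) * x ^ (1 / 2 : ℝ) ≤ e * x :=
      (mul_le_mul_of_nonneg_right hPc (by positivity)).trans hpw
    have h2 : e * x * 1 ≤ e * x * W₁ := mul_le_mul_of_nonneg_left hsz1 (by positivity)
    linarith
  have q2 : ((⌊x⌋₊ : ℝ) + 1) * (4 ^ j * W₂ + e * W₁) ≤ (1 + e) * x * (4 ^ j * W₂ + e * W₁) :=
    mul_le_mul_of_nonneg_right hN (by positivity)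
  have q3 : (1 + e) * x * (4 ^ j * W₂ + e * W₁) + e * x * W₁ ≤ (ε * T₁ + 4 ^ j * T₂) * x := by
    have r1 : 4 ^ j * ((1 + e) * W₂) ≤ 4 ^ j * (T₂ + 4 * e * T₁) := by
      apply mul_le_mul_of_nonneg_left _ (by positivity)
      have r2 : (1 + e) * W₂ ≤ (1 + e) * ((1 + 2 * e) * T₂) := mul_le_mul_of_nonneg_left hWT2 (by linarith)
      have r3 : (1 + e) * ((1 + 2 * e) * T₂) ≤ (1 + 4 * e) * T₂ := by
        have : (1 + e) * (1 + 2 * e) ≤ 1 + 4 * e := by nlinarith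
        nlinarith
      nlinarith
    have r4 : ((1 + e) * e + e) * W₁ ≤ 5 * e * T₁ := by
      have r5 : ((1 + e) * e + e) * W₁ ≤ (5 / 2 * e) * W₁ := by
        apply mul_le_mul_of_nonneg_right _ hW10
        nlinarith
      have r6 : W₁ ≤ 2 * T₁ := by nlinarith
      nlinarith
    have r7 : (4 * 4 ^ j + 5) * e * T₁ ≤ ε * T₁ := mul_le_mul_of_nonneg_right he2 hT10
    have r8 : (1 + e) * (4 ^ j * W₂ + e * W₁) + e * W₁ ≤ ε * T₁ + 4 ^ j * T₂ := by linarith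
    have r9 := mul_le_mul_of_nonneg_right r8 hx0.le
    linarith
  linarith

end Pool.Agent.H96.AS
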