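import Pool.Agent.H96.AE.BMU
import Pool.Agent.H96.AE.CVa
import Pool.Agent.H12.DM.Ba
import Pool.Agent.H12.DM.Bs

/-!
# AS: almost all `k`-subsets of an arbitrary set of shifts (MP_1039f5_nt). Definitions

`L = log x`, `N = ⌊x⌋₊ + 1`, `w = yy x`, `W = WW w`, `A` a finite set of shifts in `Icc 1 H`, `H ≤ L^2` (`A` may be very sparse), `|A| ≥ K L`.
`BA w A n = ∑_{e ∈ A} Mm w (n - e)` has period `W`; `BB w A j` is its `j`-th moment over a period. `JJ x H = [H + 1, N + H)`, so `1 ≤ n - a < 2x` for `a ∈ Icc 1 H`, `n ∈ JJ x H`.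
`V` (from `GoodVm m b x V`): the Brun-Hooley weight for the primes in `(w, z]`, `z = x ^ dlm m b`, mean `1`; `β` (from `GoodBt`): Selberg's weight for the primes in `(z, x^θ]`, mean `1`.
-/

set_option autoImplicit false

namespace Pool.Agent.H96.AS

open Finset Pool.Agent.H17 Pool.Agent.H6.MF Pool.Agent.H6.MB Pool.Agent.H12.DM Pool.Agent.H6.AE Pool.Agent.H96.AE

/-- the expected number (times `log x`) of primes among the `n - e`, `e ∈ A` -/
noncomputable def BA (w : ℕ) (A : Finset ℤ) (n : ℤ) : ℝ := ∑ e ∈ A, Mm w (n - e)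

/-- its moments over a period -/
noncomputable def BB (w : ℕ) (A : Finset ℤ) (j : ℕ) : ℝ := avgP (WW w) (fun n => BA w A n ^ j)

/-- the range of summation -/
noncomputable def JJ (x : ℝ) (H : ℕ) : Finset ℕ := Finset.Ico (H + 1) (⌊x⌋₊ + 1 + H)

/-- the part of the range of summation in the class `t` modulo `WW (yy x)` -/
noncomputable def JC (x : ℝ) (H t : ℕ) : Finset ℕ := (JJ x H).filter (fun n => n % WW (yy x) = t)

/-- the properties of Selberg's weight for the primes in `(x^δ, x^θ]`, normalised to have mean one -/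
def GoodBt (δ θ C x : ℝ) (β : ℤ → ℝ) : Prop :=
  (∀ n, 0 ≤ β n) ∧
  (∀ n : ℤ, (∀ p ∈ PI (x ^ δ) (x ^ θ), ¬ (p : ℤ) ∣ n) → θ * Real.log x * EP 0 (x ^ δ) ≤ β n) ∧
  TD (PR (x ^ δ) (x ^ θ)) (C * x ^ (2 * θ)) β ∧
  avgP (PR (x ^ δ) (x ^ θ)) β = 1 ∧
  (∀ k : ℤ, k ≠ 0 → |(k : ℝ)| ≤ 4 * (Real.log x) ^ 2 →
    avgP (PR (x ^ δ) (x ^ θ)) (fun n => β n * β (n + k)) ≤ 1 + 1 / Real.log x) ∧
  (∀ n : ℤ, 0 < n → (n : ℝ) ≤ 2 * x → β n ≤ C)

lemma BA_nonneg (w : ℕ) (A : Finset ℤ) (n : ℤ) : 0 ≤ BA w A n := Finset.sum_nonneg fun _ _ => Mm_nonneg _ _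

lemma BB_nonneg (w : ℕ) (A : Finset ℤ) (j : ℕ) : 0 ≤ BB w A j := by
  unfold BB avgP
  exact div_nonneg (Finset.sum_nonneg fun n _ => pow_nonneg (BA_nonneg _ _ _) _) (Nat.cast_nonneg _)

end Pool.Agent.H96.AS
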