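import Pool.Agent.H96.AS.Df
import Pool.Agent.H6.AE.Sgm

/-!
# PW: the primes `> w` dividing small differences contribute `1 + o(1)`; the singular series

`w = yy x`, `s` a finite set with `|s| ≤ k` and `|a - a'| ≤ 4 (log x)^2` for `a, a' ∈ s`.
* `PW_Gs`: as `NUA_…` in `Pool/Agent/H6/MB/NUA.lean` (lines 200-262: `NUA_sumk`, `NUA_exp_prod`, `NUA_ev`), with the constant `2^m` instead of `14` and `k` instead of `4`: an integer `δ ≠ 0`, `|δ| ≤ 4 L^2`, has at most `log (4L^2)/log w` prime factors `> w`, so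
  `∑_{p ∣ δ, p > w} 2^m/p ≤ 2^m log (4 L^2)/(w log w)`; there are at most `k^2` pairs, `Gs m w s ≤ exp (k^2 2^m log (4L^2)/(w log w))` and `log (4 L^2)/w ≤ 4 log log x/w ≤ 800` for large `x` (`log log x ≤ 200 yy x`: `yy_lower`), so the exponent is `≤ 800 k^2 2^m/log w → 0`.
* `PW_sing`: for `1 ≤ |s| ≤ k`. Lower bound: `SNG_gen` with the primes `≤ w` (`sW_eq`, `sW x s = ∏_{p ≤ w} loc s p`): `(1 - k^2/w) sW ≤ sing`. Upper bound: `sing_le_prod` with the primes `≤ w` and the primes `> w` dividing a difference (`Bs_nu`: `nuH s p ≠ |s|` iff `p` divides a difference); `loc_prod_le` in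
  `Pool/Agent/H6/AE/Sgm.lean` (`∏_{p ∈ S} loc s p ≤ ∏_{q ∈ s.offDiag} gfm k w (q.1 - q.2) = Gs k w s` for primes `> w`) and `PW_Gs` (`m = k`). `k^2/w ≤ ε` for large `x`.
-/

set_option autoImplicit false

namespace Pool.Agent.H96.AS

open Finset Pool.Agent.H17 Pool.Agent.H6.MF Pool.Agent.H6.MB Pool.Agent.H12.DM Pool.Agent.H6.AE Pool.Agent.H96.AE

open Filter in
private theorem PW_ev (C ε : ℝ) (hε : 0 < ε) (n : ℕ) : ∃ X : ℝ, ∀ x : ℝ, X ≤ x → 1 ≤ x ∧ n ≤ yy x ∧ 2 ≤ yy x ∧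
    1 ≤ Real.log x ∧ Real.exp (C / Real.log (yy x)) ≤ 1 + ε := by
  have h1 : Tendsto (fun x : ℝ => Real.exp (C / Real.log (yy x))) atTop (nhds 1) := by
    have h2 : Tendsto (fun x : ℝ => C / Real.log (yy x)) atTop (nhds 0) := by
      apply Tendsto.div_atTop tendsto_const_nhds
      exact Real.tendsto_log_atTop.comp (tendsto_natCast_atTop_atTop.comp tendsto_yy)
    have h3 := (Real.continuous_exp.tendsto 0).comp h2
    rwa [Real.exp_zero] at h3
  have h4 := h1.eventually (ge_mem_nhds (by linarith : (1 : ℝ) < 1 + ε))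
  obtain ⟨X, hX⟩ := Filter.eventually_atTop.1 (h4.and ((eventually_ge_atTop 1).and
    ((tendsto_yy.eventually_ge_atTop (max 2 n)).and (Real.tendsto_log_atTop.eventually_ge_atTop 1))))
  exact ⟨X, fun x hx => ⟨(hX x hx).2.1, (le_max_right _ _).trans (hX x hx).2.2.1,
    (le_max_left _ _).trans (hX x hx).2.2.1, (hX x hx).2.2.2, (hX x hx).1⟩⟩

private theorem PW_gfm (m : ℕ) {w : ℕ} (hw : 2 ≤ w) {δ : ℤ} (hδ : δ ≠ 0) {M : ℝ} (hM : |(δ : ℝ)| ≤ M) :
    gfm m w δ ≤ Real.exp (2 ^ m * Real.log M / ((w : ℝ) * Real.log w)) := by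
  have hw1 : (1 : ℝ) < w := by
    have : (2 : ℝ) ≤ w := by exact_mod_cast hw
    linarith
  have hlw : 0 < Real.log w := Real.log_pos hw1
  unfold gfm gfB
  obtain ⟨S, hS⟩ : ∃ S : Finset ℕ, S = δ.natAbs.primeFactors.filter (fun p => w < p) := ⟨_, rfl⟩
  rw [← hS]
  have hmem : ∀ p ∈ S, p.Prime ∧ (w : ℝ) < (p : ℝ) ∧ (p : ℤ) ∣ δ := by
    intro p hp
    rw [hS, Finset.mem_filter, Nat.mem_primeFactors] at hp
    exact ⟨hp.1.1, by exact_mod_cast hp.2, Int.natCast_dvd.2 hp.1.2.1⟩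
  refine (NUA_exp_prod _ _ fun _ _ => by positivity).trans (Real.exp_le_exp.2 ?_)
  have h1 : ∑ p ∈ S, (2 : ℝ) ^ m / (p : ℝ) ≤ S.card * (2 ^ m / w) := by
    rw [← nsmul_eq_mul]
    refine Finset.sum_le_card_nsmul _ _ _ fun p hp => ?_
    exact div_le_div_of_nonneg_left (by positivity) (by linarith) (hmem p hp).2.1.le
  refine h1.trans ?_
  have h2 := NUA_card hw1 hδ hM hmem
  rw [le_div_iff₀ (by positivity)]
  have h3 : (S.card : ℝ) * (2 ^ m / w) * (w * Real.log w) = 2 ^ m * ((S.card : ℝ) * Real.log w) := by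
    field_simp
  rw [h3]
  exact mul_le_mul_of_nonneg_left h2 (by positivity)

private theorem PW_log {x : ℝ} (hx : 2 ≤ yy x) (hL : 1 ≤ Real.log x) :
    Real.log (4 * (Real.log x) ^ 2) ≤ 402 * (yy x : ℝ) := by
  have h1 := yy_lower (x := x) (by omega)
  have h2 : (2 : ℝ) ≤ yy x := by exact_mod_cast hx
  have h3 : Real.log 4 ≤ 2 := by
    have h8 : Real.log 4 = 2 * Real.log 2 := by
      rw [show (4 : ℝ) = 2 ^ 2 by norm_num, Real.log_pow]
      push_cast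
      ring
    rw [h8]
    have := Real.log_two_lt_d9
    linarith
  rw [Real.log_mul (by norm_num) (by positivity), Real.log_pow]
  push_cast
  linarith

theorem PW_Gs (m k : ℕ) (ε : ℝ) (hε : 0 < ε) : ∃ X : ℝ, ∀ x : ℝ, X ≤ x → ∀ s : Finset ℤ, s.card ≤ k →
    (∀ a ∈ s, ∀ a' ∈ s, |((a - a' : ℤ) : ℝ)| ≤ 4 * (Real.log x) ^ 2) → Gs m (yy x) s ≤ 1 + ε := by
  obtain ⟨X, hX⟩ := PW_ev ((k : ℝ) ^ 2 * (2 ^ m * 402)) ε hε 0
  refine ⟨X, fun x hx s hs hd => ?_⟩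
  obtain ⟨_, _, hw, hL, hexp⟩ := hX x hx
  refine le_trans ?_ hexp
  have hw2 : (2 : ℝ) ≤ yy x := by exact_mod_cast hw
  have hw0 : (0 : ℝ) < yy x := by linarith
  have hlw : 0 < Real.log (yy x) := Real.log_pos (by linarith)
  have hlog := PW_log hw hL
  unfold Gs
  have h1 : ∏ q ∈ s.offDiag, gfm m (yy x) (q.1 - q.2) ≤
      ∏ q ∈ s.offDiag, Real.exp (2 ^ m * 402 / Real.log (yy x)) := by
    refine Finset.prod_le_prod (fun q _ => zero_le_one.trans (one_le_gfm _ _ _)) fun q hq => ?_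
    obtain ⟨h1, h2, h3⟩ := Finset.mem_offDiag.1 hq
    refine (PW_gfm m hw (sub_ne_zero.2 h3) (hd _ h1 _ h2)).trans (Real.exp_le_exp.2 ?_)
    rw [div_le_div_iff₀ (by positivity) hlw]
    have h4 : (2 : ℝ) ^ m * Real.log (4 * (Real.log x) ^ 2) ≤ 2 ^ m * (402 * (yy x : ℝ)) :=
      mul_le_mul_of_nonneg_left hlog (by positivity)
    calc (2 : ℝ) ^ m * Real.log (4 * (Real.log x) ^ 2) * Real.log (yy x)
        ≤ 2 ^ m * (402 * (yy x : ℝ)) * Real.log (yy x) := mul_le_mul_of_nonneg_right h4 hlw.le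
      _ = 2 ^ m * 402 * ((yy x : ℝ) * Real.log (yy x)) := by ring
  refine h1.trans ?_
  rw [Finset.prod_const, ← Real.exp_nat_mul]
  refine Real.exp_le_exp.2 ?_
  have hc : (s.offDiag.card : ℝ) ≤ (k : ℝ) ^ 2 := by
    have h2 : s.offDiag.card ≤ k ^ 2 := by
      rw [Finset.offDiag_card, pow_two]
      exact (Nat.sub_le _ _).trans (Nat.mul_le_mul hs hs)
    exact_mod_cast h2
  rw [mul_div_assoc ((k : ℝ) ^ 2)]
  exact mul_le_mul_of_nonneg_right hc (by positivity)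

theorem PW_sing (k : ℕ) (ε : ℝ) (hε : 0 < ε) : ∃ X : ℝ, ∀ x : ℝ, X ≤ x → ∀ s : Finset ℤ, 1 ≤ s.card → s.card ≤ k →
    (∀ a ∈ s, ∀ a' ∈ s, |((a - a' : ℤ) : ℝ)| ≤ 4 * (Real.log x) ^ 2) →
    (1 - ε) * sW x s ≤ sing s ∧ sing s ≤ (1 + ε) * sW x s := by
  obtain ⟨X₁, hX₁⟩ := PW_Gs k k ε hε
  obtain ⟨X₂, hX₂⟩ := PW_ev 0 ε hε (max (2 * k) ⌈(k : ℝ) ^ 2 / ε⌉₊)
  refine ⟨max X₁ X₂, fun x hx s h1 hk hd => ?_⟩
  have hG := hX₁ x ((le_max_left _ _).trans hx) s hk hd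
  obtain ⟨_, hn, hw, hL, _⟩ := hX₂ x ((le_max_right _ _).trans hx)
  obtain ⟨w, hwdef⟩ : ∃ w : ℕ, w = yy x := ⟨_, rfl⟩
  rw [← hwdef] at hG hn hw
  have hw2k : 2 * k ≤ w := (le_max_left _ _).trans hn
  have hw2 : (2 : ℝ) ≤ w := by exact_mod_cast hw
  have hw0 : (0 : ℝ) < w := by linarith
  have hke : (k : ℝ) ^ 2 / w ≤ ε := by
    have h2 : (k : ℝ) ^ 2 / ε ≤ w := by
      have h3 : ⌈(k : ℝ) ^ 2 / ε⌉₊ ≤ w := (le_max_right _ _).trans hn
      exact (Nat.le_ceil _).trans (by exact_mod_cast h3)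
    rw [div_le_iff₀ hw0]
    rw [div_le_iff₀ hε] at h2
    linarith
  have hS0 := Sy_nonneg w s
  have hsW : sW x s = Sy w s := by rw [hwdef]; rfl
  rw [hsW]
  constructor
  · have hlow := SNG_gen s w (by omega) (by omega) (PP w)
      (fun p hp => (mem_PP.mp hp).2) (fun p hp hle => mem_PP.mpr ⟨hle, hp⟩)
    rw [← Sy_eq] at hlow
    refine le_trans (mul_le_mul_of_nonneg_right ?_ hS0) hlow
    have h3 : (s.card : ℝ) ^ 2 / (w : ℝ) ≤ (k : ℝ) ^ 2 / w := by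
      refine div_le_div_of_nonneg_right (pow_le_pow_left₀ (Nat.cast_nonneg _) ?_ 2) hw0.le
      exact_mod_cast hk
    linarith
  · have hup := sing_le_prod s (PP w ∪ (Sgm_D s).filter (fun p => w < p)) (fun p hp => by
        rw [Finset.mem_union, Finset.mem_filter] at hp
        rcases hp with hp | hp
        · exact (mem_PP.mp hp).2
        · exact Sgm_D_prime hp.1) (fun p hp hn => by
        rw [Finset.mem_union, Finset.mem_filter]
        by_cases hle : p ≤ w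
        · exact Or.inl (mem_PP.mpr ⟨hle, hp⟩)
        · exact Or.inr ⟨Sgm_D_mem hp hn, by omega⟩)
    rw [Finset.prod_union (by
      rw [Finset.disjoint_left]
      intro p hp hp'
      have h5 := (mem_PP.mp hp).1
      rw [Finset.mem_filter] at hp'
      omega), ← Sy_eq] at hup
    have hD : ∏ p ∈ (Sgm_D s).filter (fun p => w < p), loc s p ≤ 1 + ε := by
      refine le_trans (loc_prod_le h1 hk _ (fun p hp => ?_)) hG
      rw [Finset.mem_filter] at hp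
      exact ⟨Sgm_D_prime hp.1, by omega⟩
    refine hup.trans ?_
    rw [mul_comm (1 + ε)]
    exact mul_le_mul_of_nonneg_left hD hS0

end Pool.Agent.H96.AS
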