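import Pool.Agent.H96.AS.Df
import Pool.Agent.H96.AE.CNT
import Pool.Agent.H96.AE.CVc

/-!
# TSa: the last correlation, the counting function, the choice of the parameter

`L = log x`, `N = ⌊x⌋₊ + 1`, `w = yy x`, `JJ x H = [H+1, N+H)`.
* `TS_last`: `n = n' + e`, `n'` runs through `[H + 1 - e, N + H - e)`; all terms are `≥ 0` and `La x n' = 0` unless `x^(1/4) < n' ≤ x`, so the sum is at most `∑_{n' < N} La x n' ∏_{h ∈ s} Mm w (n' - h)` with `s = (C.erase e).image (· - e)`, `0 ∉ s`; `Ba` (`Pool/Agent/H12/DM/Ba.lean`):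
  `≤ (1 + ε) N sW x (insert 0 s)`, `sW x (insert 0 s) = sW x C` (`sW_tr`, `tr (insert 0 s) e = C`). Compare the proof of `CV_L` in `Pool/Agent/H96/AE/CVc.lean`.
* `TS_cnt`: `k = |C| ≥ 1`; `L^k cnt x C = ∑_{n<N} L^k [all n - c prime]` and `∑_{n∈JJ} ∏_C La = ∑_{n∈JJ} L^k [all n - c prime and in (x^(1/4), x]]`. The summands agree for `H < n < N` except if some `n - c ≤ x^(1/4)`, i.e. `n ≤ x^(1/4) + H`; besides there are the `n ≤ H` and the `n ∈ [N, N+H)`: in all at most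
  `x^(1/4) + 3 L^2 + 3` values of `n`, each contributing at most `L^k`. For large `x` this is `≤ x^(1/2)` (`L^k (x^(1/4) + 3L^2 + 3) ≤ x^(1/2)`).
* `TS_choose`: `1/dlm m b = 40 (m+1)(4b+8)`, so `(1 + 1/dlm m b)^j` is a polynomial in `b` and `√(2 (1/2)^b) = √2 (√(1/2))^b`; as in `CC_choose` (`Pool/Agent/H96/AE/CC.lean`) / `Vc_choose`.
-/

set_option autoImplicit false

namespace Pool.Agent.H96.AS

open Finset Pool.Agent.H17 Pool.Agent.H6.MF Pool.Agent.H6.MB Pool.Agent.H12.DM Pool.Agent.H6.AE Pool.Agent.H96.AE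

theorem TS_last (j : ℕ) (ε : ℝ) (hε : 0 < ε) : ∃ X : ℝ, ∀ x : ℝ, X ≤ x → ∀ H : ℕ, (H : ℝ) ≤ (Real.log x) ^ 2 →
    ∀ C : Finset ℤ, C ⊆ Finset.Icc 1 (H : ℤ) → C.card ≤ j → ∀ e ∈ C,
    ∑ n ∈ JJ x H, (∏ c ∈ C.erase e, Mm (yy x) ((n : ℤ) - c)) * La x ((n : ℤ) - e)
      ≤ (1 + ε) * ((⌊x⌋₊ : ℝ) + 1) * sW x C := by
  obtain ⟨X2, hX2⟩ := Ba ε hε
  refine ⟨max 1 X2, fun x hx H _ C hCI _ e heC => ?_⟩
  have hx1 : 1 ≤ x := (le_max_left _ _).trans hx
  have hBa := hX2 x ((le_max_right _ _).trans hx)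
  obtain ⟨he1, he2⟩ := Finset.mem_Icc.1 (hCI heC)
  obtain ⟨k, hk⟩ : ∃ k : ℕ, (k : ℤ) = e := ⟨e.toNat, Int.toNat_of_nonneg (by omega)⟩
  have hkH : k ≤ H := by omega
  have hLa0 : ∀ n, 0 ≤ La x n := fun n => La_nonneg hx1 n
  set g : ℕ → ℝ := fun n => (∏ c ∈ C.erase e, Mm (yy x) ((n : ℤ) - c)) * La x ((n : ℤ) - e) with hg
  have hg0 : ∀ n, 0 ≤ g n := fun n => mul_nonneg (Finset.prod_nonneg fun c _ => Mm_nonneg _ _) (hLa0 _)
  have h1 : ∑ n ∈ JJ x H, g n ≤ ∑ n ∈ Finset.Ico k (⌊x⌋₊ + 1 + H), g n := by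
    refine Finset.sum_le_sum_of_subset_of_nonneg ?_ fun n _ _ => hg0 n
    intro n hn
    unfold JJ at hn
    rw [Finset.mem_Ico] at hn ⊢
    omega
  have h2 : ∑ n ∈ Finset.Ico k (⌊x⌋₊ + 1 + H), g n = ∑ n ∈ Finset.Ico k (⌊x⌋₊ + 1 + k), g n := by
    rw [← Finset.sum_Ico_consecutive g (show k ≤ ⌊x⌋₊ + 1 + k by omega) (show ⌊x⌋₊ + 1 + k ≤ ⌊x⌋₊ + 1 + H by omega)]
    have h3 : ∑ n ∈ Finset.Ico (⌊x⌋₊ + 1 + k) (⌊x⌋₊ + 1 + H), g n = 0 := by
      refine Finset.sum_eq_zero fun n hn => ?_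
      rw [Finset.mem_Ico] at hn
      have h4 : La x ((n : ℤ) - e) = 0 := by
        unfold La
        rw [if_neg]
        rintro ⟨-, -, h5⟩
        have h6 : ((⌊x⌋₊ : ℝ) + 1) ≤ ((((n : ℤ) - e : ℤ)) : ℝ) := by
          have h7 : ((⌊x⌋₊ : ℤ) + 1) ≤ (n : ℤ) - e := by omega
          exact_mod_cast h7
        have h8 := Nat.lt_floor_add_one x
        linarith
      simp only [hg]
      rw [h4, mul_zero]
    rw [h3, add_zero]
  have h3 : ∑ n ∈ Finset.Ico k (⌊x⌋₊ + 1 + k), g n = ∑ i ∈ Finset.range (⌊x⌋₊ + 1), g (k + i) := by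
    rw [Finset.sum_Ico_eq_sum_range]
    congr 1
    rw [Nat.add_sub_cancel]
  set s : Finset ℤ := (C.erase e).image (fun c => c - e) with hs
  have hs0 : (0 : ℤ) ∉ s := by
    rw [hs, Finset.mem_image]
    rintro ⟨c, hc, h⟩
    rw [Finset.mem_erase] at hc
    exact hc.1 (by omega)
  have h6 := hBa s hs0
  have hsW : sW x (insert 0 s) = sW x C := by
    rw [← sW_tr x (insert 0 s) e, hs, CVc_tr, Finset.insert_erase heC]
  rw [hsW] at h6
  have h7 : ∑ n ∈ Finset.range (⌊x⌋₊ + 1), La x (n : ℤ) * ∏ h ∈ s, Mm (yy x) ((n : ℤ) - h) =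
      ∑ i ∈ Finset.range (⌊x⌋₊ + 1), g (k + i) := by
    refine Finset.sum_congr rfl fun n _ => ?_
    rw [hs, Finset.prod_image (fun a _ b _ h => by omega)]
    simp only [hg]
    have e1 : ((k + n : ℕ) : ℤ) = (n : ℤ) + e := by push_cast; rw [hk]; ring
    rw [e1, add_sub_cancel_right, mul_comm]
    congr 1
    refine Finset.prod_congr rfl fun c _ => ?_
    congr 1
    ring
  rw [h7] at h6
  have h8 := (abs_le.1 h6).2
  have h9 : (1 + ε) * ((⌊x⌋₊ : ℝ) + 1) * sW x C =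
      ((⌊x⌋₊ : ℝ) + 1) * sW x C + ε * ((⌊x⌋₊ : ℝ) + 1) * sW x C := by ring
  rw [h9]
  refine h1.trans ?_
  rw [h2, h3]
  linarith

lemma TSa_pt (x : ℝ) (hx : 1 ≤ x) (hL : 1 ≤ Real.log x) (H : ℕ) (hH : (H : ℝ) ≤ (Real.log x) ^ 2) (C : Finset ℤ)
    (hC : C ⊆ Finset.Icc 1 (H : ℤ)) (n : ℕ) :
    |(if n < ⌊x⌋₊ + 1 then (Real.log x) ^ C.card * (if ∀ h ∈ C, isP ((n : ℤ) - h) then (1 : ℝ) else 0) else 0) -
      (if H + 1 ≤ n then ∏ c ∈ C, La x ((n : ℤ) - c) else 0)| ≤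
      (if (n : ℝ) ≤ x ^ (1 / 4 : ℝ) + (Real.log x) ^ 2 then (Real.log x) ^ C.card else 0) +
        (if ⌊x⌋₊ + 1 ≤ n then (Real.log x) ^ C.card else 0) := by
  have hL0 : 0 ≤ Real.log x := by linarith
  have hLk : 0 ≤ (Real.log x) ^ C.card := pow_nonneg hL0 _
  have hG0 : 0 ≤ ∏ c ∈ C, La x ((n : ℤ) - c) := Finset.prod_nonneg fun c _ => La_nonneg hx _
  have hG1 : ∏ c ∈ C, La x ((n : ℤ) - c) ≤ (Real.log x) ^ C.card := by
    calc ∏ c ∈ C, La x ((n : ℤ) - c) ≤ ∏ _c ∈ C, Real.log x :=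
          Finset.prod_le_prod (fun c _ => La_nonneg hx _) (fun c _ => La_le hx _)
      _ = (Real.log x) ^ C.card := by simp
  have ha : ∀ P Q : Prop, [Decidable P] → [Decidable Q] →
      0 ≤ (if P then (Real.log x) ^ C.card * (if Q then (1 : ℝ) else 0) else 0) ∧
      (if P then (Real.log x) ^ C.card * (if Q then (1 : ℝ) else 0) else 0) ≤ (Real.log x) ^ C.card := by
    intro P Q _ _
    split_ifs
    · simp [hLk]
    · simp [hLk]
    · simp [hLk]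
  have hb0 : 0 ≤ (if H + 1 ≤ n then ∏ c ∈ C, La x ((n : ℤ) - c) else 0) := by
    split_ifs
    · exact hG0
    · exact le_rfl
  have hb1 : (if H + 1 ≤ n then ∏ c ∈ C, La x ((n : ℤ) - c) else 0) ≤ (Real.log x) ^ C.card := by
    split_ifs
    · exact hG1
    · exact hLk
  have hA := ha (n < ⌊x⌋₊ + 1) (∀ h ∈ C, isP ((n : ℤ) - h))
  have hcr : |(if n < ⌊x⌋₊ + 1 then (Real.log x) ^ C.card * (if ∀ h ∈ C, isP ((n : ℤ) - h) then (1 : ℝ) else 0) else 0) -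
      (if H + 1 ≤ n then ∏ c ∈ C, La x ((n : ℤ) - c) else 0)| ≤ (Real.log x) ^ C.card := by
    rw [abs_le]
    constructor
    · linarith [hA.1]
    · linarith [hA.2]
  by_cases h1 : (n : ℝ) ≤ x ^ (1 / 4 : ℝ) + (Real.log x) ^ 2
  · rw [if_pos h1]
    refine hcr.trans ?_
    split_ifs <;> linarith
  · rw [if_neg h1]
    by_cases h2 : ⌊x⌋₊ + 1 ≤ n
    · rw [if_pos h2]
      refine hcr.trans ?_
      linarith
    · rw [if_neg h2]
      push Not at h1 h2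
      have hq0 : 0 ≤ x ^ (1 / 4 : ℝ) := Real.rpow_nonneg (by linarith) _
      have hHn : H + 1 ≤ n := by
        have h3 : (H : ℝ) < (n : ℝ) := by linarith
        have h4 : H < n := by exact_mod_cast h3
        omega
      rw [if_pos h2, if_pos hHn]
      have hnx : (n : ℝ) ≤ x := by
        have h3 : n ≤ ⌊x⌋₊ := by omega
        exact le_trans (by exact_mod_cast h3) (Nat.floor_le (by linarith))
      have hLa : ∀ c ∈ C, La x ((n : ℤ) - c) = if isP ((n : ℤ) - c) then Real.log x else 0 := by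
        intro c hc
        obtain ⟨hc1, hc2⟩ := Finset.mem_Icc.1 (hC hc)
        have hc1' : (1 : ℝ) ≤ (c : ℝ) := by exact_mod_cast hc1
        have hc2' : (c : ℝ) ≤ (H : ℝ) := by exact_mod_cast hc2
        unfold La
        by_cases hp : isP ((n : ℤ) - c)
        · rw [if_pos hp, if_pos]
          refine ⟨hp, ?_, ?_⟩
          · push_cast
            linarith
          · push_cast
            linarith
        · rw [if_neg hp, if_neg]
          rintro ⟨h5, -⟩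
          exact hp h5
      rw [Finset.prod_congr rfl hLa]
      by_cases hall : ∀ h ∈ C, isP ((n : ℤ) - h)
      · rw [if_pos hall, mul_one]
        have h5 : ∏ c ∈ C, (if isP ((n : ℤ) - c) then Real.log x else 0) = (Real.log x) ^ C.card := by
          rw [Finset.prod_congr rfl (fun c hc => if_pos (hall c hc)), Finset.prod_const]
        rw [h5]
        simp
      · rw [if_neg hall, mul_zero]
        push Not at hall
        obtain ⟨h, hh, hnp⟩ := hall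
        rw [Finset.prod_eq_zero hh (if_neg hnp)]
        simp

lemma TSa_asym (k : ℕ) : ∃ X : ℝ, ∀ x : ℝ, X ≤ x →
    1 ≤ x ∧ 1 ≤ Real.log x ∧ (x ^ (1 / 4 : ℝ) + 2 * (Real.log x) ^ 2 + 1) * (Real.log x) ^ k ≤ x ^ (1 / 2 : ℝ) := by
  have hgen : ∀ i : ℕ, ∀ᶠ x : ℝ in Filter.atTop, (Real.log x) ^ i ≤ x ^ (1 / 8 : ℝ) := by
    intro i
    have h := (isLittleO_log_rpow_rpow_atTop (i : ℝ) (show (0 : ℝ) < 1 / 8 by norm_num)).bound
      (show (0 : ℝ) < 1 by norm_num)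
    filter_upwards [h, Filter.eventually_ge_atTop (1 : ℝ)] with x hx hx1
    have h0 : 0 ≤ Real.log x := Real.log_nonneg hx1
    rw [Real.rpow_natCast, one_mul, Real.norm_of_nonneg (pow_nonneg h0 i),
      Real.norm_of_nonneg (Real.rpow_nonneg (by linarith) _)] at hx
    exact hx
  have h3 : ∀ᶠ x : ℝ in Filter.atTop, 1 ≤ Real.log x :=
    Real.tendsto_log_atTop.eventually_ge_atTop 1
  obtain ⟨X, hX⟩ := Filter.eventually_atTop.1
    (((hgen k).and (hgen 2)).and (h3.and ((Filter.eventually_ge_atTop (1 : ℝ)).and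
      (Filter.eventually_ge_atTop ((4 : ℝ) ^ 8)))))
  refine ⟨X, fun x hx => ?_⟩
  obtain ⟨⟨a1, a2⟩, a3, a4, a5⟩ := hX x hx
  refine ⟨a4, a3, ?_⟩
  have hx0 : (0 : ℝ) ≤ x := by linarith
  set q : ℝ := x ^ (1 / 8 : ℝ) with hq
  have hq1 : 1 ≤ q := Real.one_le_rpow a4 (by norm_num)
  have hq8 : q ^ 8 = x := by
    rw [hq, ← Real.rpow_natCast, ← Real.rpow_mul hx0]
    norm_num
  have hq2 : x ^ (1 / 4 : ℝ) = q ^ 2 := by
    rw [hq, ← Real.rpow_natCast, ← Real.rpow_mul hx0]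
    norm_num
  have hq4 : x ^ (1 / 2 : ℝ) = q ^ 4 := by
    rw [hq, ← Real.rpow_natCast, ← Real.rpow_mul hx0]
    norm_num
  have h4q : 4 ≤ q := by
    have h : (4 : ℝ) ^ 8 ≤ q ^ 8 := by
      rw [hq8]
      exact a5
    exact le_of_pow_le_pow_left₀ (by norm_num) (by linarith) h
  rw [hq2, hq4]
  have hL0 : (0 : ℝ) ≤ (Real.log x) ^ k := pow_nonneg (by linarith) k
  have hqq : q ≤ q ^ 2 := by nlinarith
  calc (q ^ 2 + 2 * (Real.log x) ^ 2 + 1) * (Real.log x) ^ k ≤ (4 * q ^ 2) * q := by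
        apply mul_le_mul _ a1 hL0 (by positivity)
        nlinarith
    _ = 4 * q ^ 3 := by ring
    _ ≤ q * q ^ 3 := mul_le_mul_of_nonneg_right h4q (by positivity)
    _ = q ^ 4 := by ring

theorem TS_cnt (k : ℕ) : ∃ X : ℝ, ∀ x : ℝ, X ≤ x → ∀ H : ℕ, (H : ℝ) ≤ (Real.log x) ^ 2 →
    ∀ C : Finset ℤ, C ⊆ Finset.Icc 1 (H : ℤ) → 1 ≤ C.card → C.card ≤ k →
    |(Real.log x) ^ C.card * (cnt x C : ℝ) - ∑ n ∈ JJ x H, ∏ c ∈ C, La x ((n : ℤ) - c)| ≤ x ^ (1 / 2 : ℝ) := by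
  obtain ⟨X, hX⟩ := TSa_asym k
  refine ⟨X, fun x hx H hH C hC _ hCk => ?_⟩
  obtain ⟨h1, hL, hb⟩ := hX x hx
  have hL0 : 0 ≤ Real.log x := by linarith
  have hcnt : (Real.log x) ^ C.card * (cnt x C : ℝ) = ∑ n ∈ Finset.range (⌊x⌋₊ + 1 + H),
      (if n < ⌊x⌋₊ + 1 then (Real.log x) ^ C.card * (if ∀ h ∈ C, isP ((n : ℤ) - h) then (1 : ℝ) else 0) else 0) := by
    rw [← Finset.sum_filter]
    have hf : (Finset.range (⌊x⌋₊ + 1 + H)).filter (fun n => n < ⌊x⌋₊ + 1) = Finset.range (⌊x⌋₊ + 1) := by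
      ext n
      simp only [Finset.mem_filter, Finset.mem_range]
      omega
    rw [hf, ← Finset.mul_sum]
    congr 1
    unfold cnt
    rw [Finset.card_filter]
    push_cast
    rfl
  have hJ : ∑ n ∈ JJ x H, ∏ c ∈ C, La x ((n : ℤ) - c) = ∑ n ∈ Finset.range (⌊x⌋₊ + 1 + H),
      (if H + 1 ≤ n then ∏ c ∈ C, La x ((n : ℤ) - c) else 0) := by
    rw [← Finset.sum_filter]
    have hf : (Finset.range (⌊x⌋₊ + 1 + H)).filter (fun n => H + 1 ≤ n) = JJ x H := by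
      ext n
      unfold JJ
      simp only [Finset.mem_filter, Finset.mem_range, Finset.mem_Ico]
      omega
    rw [hf]
  rw [hcnt, hJ, ← Finset.sum_sub_distrib]
  have hLk : (Real.log x) ^ C.card ≤ (Real.log x) ^ k := pow_le_pow_right₀ hL hCk
  have hLk0 : 0 ≤ (Real.log x) ^ C.card := pow_nonneg hL0 _
  have hq0 : 0 ≤ x ^ (1 / 4 : ℝ) + (Real.log x) ^ 2 := by
    have := Real.rpow_nonneg (show 0 ≤ x by linarith) (1 / 4 : ℝ)
    positivity
  refine (Finset.abs_sum_le_sum_abs _ _).trans ?_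
  refine (Finset.sum_le_sum fun n _ => TSa_pt x h1 hL H hH C hC n).trans ?_
  rw [Finset.sum_add_distrib, ← Finset.sum_filter, ← Finset.sum_filter, Finset.sum_const, Finset.sum_const,
    nsmul_eq_mul, nsmul_eq_mul]
  have c1 : (((Finset.range (⌊x⌋₊ + 1 + H)).filter
      (fun n : ℕ => (n : ℝ) ≤ x ^ (1 / 4 : ℝ) + (Real.log x) ^ 2)).card : ℝ) ≤
      x ^ (1 / 4 : ℝ) + (Real.log x) ^ 2 + 1 := by
    have hsub : (Finset.range (⌊x⌋₊ + 1 + H)).filter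
        (fun n : ℕ => (n : ℝ) ≤ x ^ (1 / 4 : ℝ) + (Real.log x) ^ 2) ⊆
        Finset.range (⌊x ^ (1 / 4 : ℝ) + (Real.log x) ^ 2⌋₊ + 1) := by
      intro n hn
      rw [Finset.mem_filter] at hn
      rw [Finset.mem_range]
      have := Nat.le_floor hn.2
      omega
    have hc := Finset.card_le_card hsub
    rw [Finset.card_range] at hc
    calc (((Finset.range (⌊x⌋₊ + 1 + H)).filter
        (fun n : ℕ => (n : ℝ) ≤ x ^ (1 / 4 : ℝ) + (Real.log x) ^ 2)).card : ℝ)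
        ≤ ((⌊x ^ (1 / 4 : ℝ) + (Real.log x) ^ 2⌋₊ + 1 : ℕ) : ℝ) := by exact_mod_cast hc
      _ ≤ x ^ (1 / 4 : ℝ) + (Real.log x) ^ 2 + 1 := by
          push_cast
          have := Nat.floor_le hq0
          linarith
  have c2 : (((Finset.range (⌊x⌋₊ + 1 + H)).filter (fun n : ℕ => ⌊x⌋₊ + 1 ≤ n)).card : ℝ) ≤ (Real.log x) ^ 2 := by
    have hf : (Finset.range (⌊x⌋₊ + 1 + H)).filter (fun n : ℕ => ⌊x⌋₊ + 1 ≤ n) =
        Finset.Ico (⌊x⌋₊ + 1) (⌊x⌋₊ + 1 + H) := by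
      ext n
      simp only [Finset.mem_filter, Finset.mem_range, Finset.mem_Ico]
      omega
    rw [hf, Nat.card_Ico]
    have h5 : ⌊x⌋₊ + 1 + H - (⌊x⌋₊ + 1) = H := by omega
    rw [h5]
    exact hH
  calc _ ≤ (x ^ (1 / 4 : ℝ) + (Real.log x) ^ 2 + 1) * (Real.log x) ^ C.card + (Real.log x) ^ 2 * (Real.log x) ^ C.card :=
        add_le_add (mul_le_mul_of_nonneg_right c1 hLk0) (mul_le_mul_of_nonneg_right c2 hLk0)
    _ = (x ^ (1 / 4 : ℝ) + 2 * (Real.log x) ^ 2 + 1) * (Real.log x) ^ C.card := by ring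
    _ ≤ (x ^ (1 / 4 : ℝ) + 2 * (Real.log x) ^ 2 + 1) * (Real.log x) ^ k :=
        mul_le_mul_of_nonneg_left hLk (by nlinarith [sq_nonneg (Real.log x)])
    _ ≤ x ^ (1 / 2 : ℝ) := hb

theorem TS_choose (m j : ℕ) (D ε : ℝ) (hD : 0 < D) (hε : 0 < ε) (b₁ : ℕ) : ∃ b : ℕ, b₁ ≤ b ∧
    D * (1 + 1 / dlm m b) ^ j * Real.sqrt (2 * (1 / 2 : ℝ) ^ b) ≤ ε := by
  set r : ℝ := Real.sqrt (1 / 2) with hr
  have hr0 : (0 : ℝ) ≤ r := Real.sqrt_nonneg _
  have hr1 : r < 1 := by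
    rw [hr, Real.sqrt_lt' one_pos]
    norm_num
  set K : ℝ := 481 * ((m : ℝ) + 1) with hK
  have hm0 : (0 : ℝ) ≤ m := Nat.cast_nonneg m
  have hK0 : 0 < K := by positivity
  have hlim : Filter.Tendsto (fun n : ℕ => (D * K ^ j * 2) * ((n : ℝ) ^ j * r ^ n)) Filter.atTop
      (nhds ((D * K ^ j * 2) * 0)) := by
    apply Filter.Tendsto.const_mul
    apply tendsto_pow_const_mul_const_pow_of_abs_lt_one
    rw [abs_of_nonneg hr0]
    exact hr1
  rw [mul_zero] at hlim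
  have h1 := hlim.eventually (gt_mem_nhds hε)
  obtain ⟨b, hb, hb1, hb2⟩ := (h1.and ((Filter.eventually_ge_atTop b₁).and (Filter.eventually_ge_atTop 1))).exists
  refine ⟨b, hb1, ?_⟩
  have hbR : (1 : ℝ) ≤ b := by exact_mod_cast hb2
  have hinv : 1 + 1 / dlm m b ≤ K * b := by
    unfold dlm
    rw [one_div_one_div, hK]
    have h2 : 0 ≤ (m : ℝ) * (b - 1) := mul_nonneg hm0 (by linarith)
    nlinarith
  have hinv0 : 0 ≤ 1 + 1 / dlm m b := by
    have := dlm_pos m b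
    positivity
  have hsq : Real.sqrt (2 * (1 / 2 : ℝ) ^ b) ≤ 2 * r ^ b := by
    rw [Real.sqrt_le_left (by positivity)]
    have : (r ^ b) ^ 2 = (1 / 2 : ℝ) ^ b := by
      rw [← pow_mul, mul_comm, pow_mul, hr, Real.sq_sqrt (by norm_num)]
    rw [mul_pow, this]
    have : (0 : ℝ) < (1 / 2 : ℝ) ^ b := by positivity
    linarith
  calc D * (1 + 1 / dlm m b) ^ j * Real.sqrt (2 * (1 / 2 : ℝ) ^ b)
      ≤ D * (K * b) ^ j * (2 * r ^ b) := by
        apply mul_le_mul _ hsq (Real.sqrt_nonneg _) (by positivity)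
        exact mul_le_mul_of_nonneg_left (pow_le_pow_left₀ hinv0 hinv j) hD.le
    _ = (D * K ^ j * 2) * ((b : ℝ) ^ j * r ^ b) := by
        rw [mul_pow]
        ring
    _ ≤ ε := hb.le

end Pool.Agent.H96.AS
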